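import Pool.Agent.H188.NL.Defs
import Pool.Agent.H188.LC.Main

/-!
# Assembly: contraction in good windows
-/

set_option autoImplicit false

namespace Pool.Agent.H188.NL

open Pool.Agent.H188.LB (Tch Plus Minus cnt wF)
open Pool.Agent.H188.LC (refl_mono refl_tch refl_plus)

theorem DL_range {F : ℤ → ℤ} (hF : Monotone F) (p q : ℤ) : DL F p q (F q - F p).toNat := by
  intro c u hu h1 h2
  have e1 : F p ≤ F (c - u) := hF h1
  have e2 : F (c - u) ≤ F c := hF (by omega)
  have e3 : F c ≤ F (c + u) := hF (by omega)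
  have e4 : F (c + u) ≤ F q := hF h2
  unfold D2
  rw [abs_le]
  omega

theorem dv_spec {F : ℤ → ℤ} (hF : Monotone F) (p q : ℤ) : DL F p q (dv F p q) :=
  Nat.sInf_mem (s := {d : ℕ | DL F p q d}) ⟨_, DL_range hF p q⟩

theorem dv_le {F : ℤ → ℤ} {p q : ℤ} {d : ℕ} (h : DL F p q d) : dv F p q ≤ d :=
  Nat.sInf_le h

theorem DL_sub {F : ℤ → ℤ} {p q p' q' : ℤ} {d : ℕ} (h : DL F p q d) (h1 : p ≤ p') (h2 : q' ≤ q) :
    DL F p' q' d := fun c u hu k1 k2 => h c u hu (h1.trans k1) (k2.trans h2)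

theorem dv_mono {F : ℤ → ℤ} (hF : Monotone F) {p q p' q' : ℤ} (h1 : p ≤ p') (h2 : q' ≤ q) :
    dv F p' q' ≤ dv F p q := dv_le (DL_sub (dv_spec hF p q) h1 h2)

theorem refl_D2 (F : ℤ → ℤ) (A c u : ℤ) : D2 (LC.refl F A) c u = - D2 F (A - 1 - c) u := by
  unfold D2 LC.refl
  have e1 : A - 1 - (c + u) = A - 1 - c - u := by ring
  have e2 : A - 1 - (c - u) = A - 1 - c + u := by ring
  rw [e1, e2]
  ring

theorem refl_DL (F : ℤ → ℤ) (A p q : ℤ) (d : ℕ) :
    DL (LC.refl F A) p q d ↔ DL F (A - 1 - q) (A - 1 - p) d := by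
  constructor
  · intro h c u hu h1 h2
    have := h (A - 1 - c) u hu (by omega) (by omega)
    rw [refl_D2, abs_neg] at this
    have e : A - 1 - (A - 1 - c) = c := by ring
    rwa [e] at this
  · intro h c u hu h1 h2
    rw [refl_D2, abs_neg]
    exact h (A - 1 - c) u hu (by omega) (by omega)

theorem refl_dv (F : ℤ → ℤ) (A p q : ℤ) : dv (LC.refl F A) p q = dv F (A - 1 - q) (A - 1 - p) := by
  unfold dv
  congr 1
  ext d
  exact refl_DL F A p q d

theorem cnt_mono {B B' : ℤ → Prop} (h : ∀ u, B u → B' u) (S : ℤ) : cnt B S ≤ cnt B' S := by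
  classical
  unfold cnt
  apply Finset.card_le_card
  intro u hu
  rw [Finset.mem_filter] at hu ⊢
  exact ⟨hu.1, h u hu.2⟩

theorem refl_GW {F : ℤ → ℤ} {a s h : ℤ} (hG : GW F a s h) : GW (LC.refl F (2 * a + s)) a s h := by
  intro S h1 h2
  have k1 := hG S h1 h2
  have k2 : cnt (TB (LC.refl F (2 * a + s)) (a - s) (a + 2 * s)) S ≤
      cnt (TB F (a - s) (a + 2 * s)) S := by
    refine cnt_mono ?_ S
    rintro u ⟨c, l, h3, h4, h5⟩
    exact ⟨2 * a + s - c, l, by omega, by omega, refl_tch h5⟩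
  omega

theorem left_sum (hblock : S_block) (htele : S_tele) {F : ℤ → ℤ} (hF : Monotone F) {a s h q : ℤ}
    {N n : ℕ} (hh : 1 ≤ h) (hN : 1 ≤ N) (hs : s = 1024 * N * h) (hCh : Ch F (a - s) q h)
    (hLc : Lc F (a - s) q h) (hq : a + 64 * h * (n + 2 + N) ≤ q) (hq2 : q ≤ a + 2 * s) :
    N * ∑ i ∈ Finset.range (64 * n), (1 + dv F (a + i * h - h - 1) (a + i * h + 2 * h)) ≤
      512 * dv F (a - s - 1) (a + 2 * s) := by
  have hN' : (1 : ℤ) ≤ N := by exact_mod_cast hN
  have hNh : h ≤ N * h := by nlinarith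
  have hsum : ∀ k : ℕ, k ≤ n →
      ((∑ i ∈ Finset.range (64 * k), (1 + dv F (a + i * h - h - 1) (a + i * h + 2 * h)) : ℕ) : ℤ) ≤
      64 * ∑ k ∈ Finset.range k,
        ((F (a + 64 * h * k + 192 * h) - F (a + 64 * h * k + 128 * h)) -
          (F (a + 64 * h * k - 64 * h) - F (a + 64 * h * k - 128 * h))) := by
    intro k
    induction k with
    | zero => intro _; simp
    | succ k ih =>
      intro hk
      have h1 := ih (by omega)
      have e : 64 * (k + 1) = 64 * k + 64 := by ring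
      rw [e, Finset.sum_range_add, Finset.sum_range_succ _ k, Nat.cast_add, mul_add]
      refine add_le_add h1 ?_
      rw [Nat.cast_sum]
      have hb : ∀ r ∈ Finset.range 64,
          ((1 + dv F (a + ((64 * k + r : ℕ) : ℤ) * h - h - 1)
            (a + ((64 * k + r : ℕ) : ℤ) * h + 2 * h) : ℕ) : ℤ) ≤
          ((F (a + 64 * h * k + 192 * h) - F (a + 64 * h * k + 128 * h)) -
          (F (a + 64 * h * k - 64 * h) - F (a + 64 * h * k - 128 * h))) := by
        intro r hr
        rw [Finset.mem_range] at hr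
        have hr' : (r : ℤ) + 1 ≤ 64 := by exact_mod_cast hr
        have hk' : (k : ℤ) + 1 ≤ n := by exact_mod_cast hk
        have hk0 : (0 : ℤ) ≤ k := Int.natCast_nonneg k
        have hr0 : (0 : ℤ) ≤ r := Int.natCast_nonneg r
        apply hblock F (a - s) q h (a + 64 * h * k) _ hh hCh hLc
        · have : 0 ≤ h * k := by positivity
          rw [hs]
          nlinarith
        · have : 64 * h * (k + 3) ≤ 64 * h * (n + 2 + N) := by
            apply mul_le_mul_of_nonneg_left _ (by omega)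
            linarith
          nlinarith
        · push_cast
          have : 0 ≤ r * h := by positivity
          nlinarith
        · push_cast
          have : (r : ℤ) * h + h ≤ 64 * h := by nlinarith
          nlinarith
      have := Finset.sum_le_sum hb
      rw [Finset.sum_const, Finset.card_range, nsmul_eq_mul] at this
      exact_mod_cast this
  have hsp := dv_spec hF (a - s - 1) (a + 2 * s)
  have ht := htele F (a - s) q h a N n (dv F (a - s - 1) (a + 2 * s)) hh hN hCh
    (by rw [hs]; nlinarith) hq (DL_sub hsp (by rw [hs]; nlinarith) (by linarith))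
  have h2 := hsum n le_rfl
  have h3 : (N : ℤ) * ((∑ i ∈ Finset.range (64 * n), (1 + dv F (a + i * h - h - 1)
      (a + i * h + 2 * h)) : ℕ) : ℤ) ≤ 512 * (dv F (a - s - 1) (a + 2 * s) : ℤ) := by
    have h4 := mul_le_mul_of_nonneg_left h2 (show (0 : ℤ) ≤ N by omega)
    refine h4.trans ?_
    linarith
  exact_mod_cast h3

theorem pick {g L1 L2 : ℤ} {N : ℕ} (hg : 1 ≤ g) (hN : 16 ≤ N) (h : g * (16 * N - 1) ≤ L1 + L2) :
    ∃ n1 n2 : ℕ, n1 + n2 ≤ 16 * N ∧ 12 * N ≤ n1 + n2 ∧ (n1 = 0 ∨ g * (n1 + 2 + N) ≤ L1) ∧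
      (n2 = 0 ∨ g * (n2 + 2 + N) ≤ L2) := by
  obtain ⟨X, hX⟩ : ∃ X, X = L1 / g := ⟨_, rfl⟩
  obtain ⟨Y, hY⟩ : ∃ Y, Y = L2 / g := ⟨_, rfl⟩
  have hX1 : g * X ≤ L1 := by
    rw [hX]
    exact Int.mul_ediv_self_le (by omega)
  have hX2 : L1 < g * X + g := by
    rw [hX]
    exact Int.lt_mul_ediv_self_add (by omega)
  have hY1 : g * Y ≤ L2 := by
    rw [hY]
    exact Int.mul_ediv_self_le (by omega)
  have hY2 : L2 < g * Y + g := by
    rw [hY]
    exact Int.lt_mul_ediv_self_add (by omega)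
  have hXY : 16 * (N : ℤ) - 1 < X + Y + 2 := by
    have h1 : g * (16 * N - 1) < g * (X + Y + 2) := by
      have : g * (X + Y + 2) = (g * X + g) + (g * Y + g) := by ring
      rw [this]
      linarith
    exact lt_of_mul_lt_mul_left h1 (by omega)
  have hmul : ∀ {n : ℕ} {Z L : ℤ}, g * Z ≤ L → (n : ℤ) + 2 + N ≤ Z → g * (n + 2 + N) ≤ L := by
    intro n Z L h1 h2
    exact (mul_le_mul_of_nonneg_left h2 (by omega)).trans h1
  by_cases c1 : X ≤ N + 2
  · by_cases c2 : 17 * (N : ℤ) + 2 ≤ Y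
    · exact ⟨0, 16 * N, by omega, by omega, Or.inl rfl, Or.inr (hmul hY1 (by push_cast; omega))⟩
    · refine ⟨0, (Y - 2 - N).toNat, by omega, by omega, Or.inl rfl, Or.inr (hmul hY1 (by omega))⟩
  · by_cases c3 : 17 * (N : ℤ) + 2 ≤ X
    · exact ⟨16 * N, 0, by omega, by omega, Or.inr (hmul hX1 (by push_cast; omega)), Or.inl rfl⟩
    · by_cases c4 : Y ≤ N + 2
      · exact ⟨(X - 2 - N).toNat, 0, by omega, by omega, Or.inr (hmul hX1 (by omega)), Or.inl rfl⟩
      · by_cases c5 : X + Y ≤ 18 * N + 4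
        · exact ⟨(X - 2 - N).toNat, (Y - 2 - N).toNat, by omega, by omega,
            Or.inr (hmul hX1 (by omega)), Or.inr (hmul hY1 (by omega))⟩
        · exact ⟨(X - 2 - N).toNat, (17 * (N : ℤ) + 2 - X).toNat, by omega, by omega,
            Or.inr (hmul hX1 (by omega)), Or.inr (hmul hY1 (by omega))⟩

theorem good_contract (hswitch : S_switch) (hsign : S_sign) (hchord : S_chord)
    (hlocal : S_local) (hblock : S_block) (htele : S_tele) {F : ℤ → ℤ} (hF : Monotone F)
    {a s h : ℤ} {N : ℕ} (hh : 1 ≤ h) (hN : 16 ≤ N) (hs : s = 1024 * N * h) (hG : GW F a s h) :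
    ∃ R : Finset ℕ, R ⊆ Finset.range (1024 * N) ∧ 768 * N ≤ R.card ∧
      N * ∑ i ∈ R, (1 + dv F (a + i * h - h - 1) (a + i * h + 2 * h)) ≤
        1024 * dv F (a - s - 1) (a + 2 * s) := by
  classical
  have hN' : (16 : ℤ) ≤ N := by exact_mod_cast hN
  have hNh : 16 * h ≤ N * h := by nlinarith
  have hs100 : 100 * h ≤ s := by rw [hs]; nlinarith
  obtain ⟨t0, cs, ht1, ht2, hc1, hc2, hPl, hMi⟩ := hswitch F hF a s h hh hs100 hG
  have hPR := hsign F hF a s h t0 cs hh (by omega) ht2 hc2 hPl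
  have hCh := hchord F hF a s h cs hh hs100 hG hPR hc2
  have hLc := hlocal F hF a s h cs hh hs100 hG hPR hc2
  have hG' := refl_GW hG
  have hF' := refl_mono hF (2 * a + s)
  have hPR' := hsign _ hF' a s h t0 (2 * a + s - cs) hh (by omega) ht2 (by omega)
    (fun c k1 k2 => refl_plus (hMi (2 * a + s - c) (by omega) (by omega)))
  have hCh' := hchord _ hF' a s h _ hh hs100 hG' hPR' (by omega)
  have hLc' := hlocal _ hF' a s h _ hh hs100 hG' hPR' (by omega)
  obtain ⟨n1, n2, e1, e2, e3, e4⟩ := pick (g := 64 * h) (L1 := cs - 22 * h - a)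
    (L2 := 2 * a + s - cs - 22 * h - a) (N := N) (by omega) hN (by rw [hs]; nlinarith)
  have hS1 : N * ∑ i ∈ Finset.range (64 * n1),
      (1 + dv F (a + i * h - h - 1) (a + i * h + 2 * h)) ≤
        512 * dv F (a - s - 1) (a + 2 * s) := by
    rcases e3 with e3 | e3
    · subst e3
      simp
    · exact left_sum hblock htele hF hh (by omega) hs hCh hLc (by linarith) (by omega)
  have hS2 : N * ∑ i ∈ Finset.range (64 * n2),
      (1 + dv (LC.refl F (2 * a + s)) (a + i * h - h - 1) (a + i * h + 2 * h)) ≤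
        512 * dv (LC.refl F (2 * a + s)) (a - s - 1) (a + 2 * s) := by
    rcases e4 with e4 | e4
    · subst e4
      simp
    · exact left_sum hblock htele hF' hh (by omega) hs hCh' hLc' (by linarith) (by omega)
  have hd : dv (LC.refl F (2 * a + s)) (a - s - 1) (a + 2 * s) = dv F (a - s - 1) (a + 2 * s) := by
    rw [refl_dv]
    congr 1
    · ring
    · ring
  rw [hd] at hS2
  have hinj : Set.InjOn (fun i : ℕ => 1024 * N - 1 - i)
      (Finset.range (64 * n2) : Finset ℕ) := by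
    intro i hi j hj hij
    rw [Finset.mem_coe, Finset.mem_range] at hi hj
    simp only at hij
    omega
  have hdis : Disjoint (Finset.range (64 * n1))
      ((Finset.range (64 * n2)).image (fun i : ℕ => 1024 * N - 1 - i)) := by
    rw [Finset.disjoint_left]
    intro i hi hj
    rw [Finset.mem_image] at hj
    obtain ⟨j, hj, rfl⟩ := hj
    rw [Finset.mem_range] at hi hj
    omega
  refine ⟨Finset.range (64 * n1) ∪ (Finset.range (64 * n2)).image (fun i : ℕ => 1024 * N - 1 - i),
    ?_, ?_, ?_⟩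
  · intro i hi
    rw [Finset.mem_union, Finset.mem_image] at hi
    rw [Finset.mem_range]
    rcases hi with hi | ⟨j, hj, rfl⟩
    · rw [Finset.mem_range] at hi
      omega
    · omega
  · rw [Finset.card_union_of_disjoint hdis, Finset.card_image_of_injOn hinj, Finset.card_range,
      Finset.card_range]
    omega
  · rw [Finset.sum_union hdis, Finset.sum_image hinj, mul_add]
    have hS3 : ∑ i ∈ Finset.range (64 * n2), (1 + dv F (a + ((1024 * N - 1 - i : ℕ) : ℤ) * h - h - 1)
        (a + ((1024 * N - 1 - i : ℕ) : ℤ) * h + 2 * h)) = ∑ i ∈ Finset.range (64 * n2),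
      (1 + dv (LC.refl F (2 * a + s)) (a + i * h - h - 1) (a + i * h + 2 * h)) := by
      refine Finset.sum_congr rfl fun i hi => ?_
      rw [Finset.mem_range] at hi
      rw [refl_dv]
      have ec : ((1024 * N - 1 - i : ℕ) : ℤ) = 1024 * N - 1 - i := by omega
      rw [ec]
      congr 2
      · rw [hs]
        ring
      · rw [hs]
        ring
    rw [hS3]
    omega

end Pool.Agent.H188.NL
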