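import Pool.Agent.H188.NL.Defs

/-!
# N5: the deviation of a small window is at most a difference of far slopes
-/

set_option autoImplicit false

namespace Pool.Agent.H188.NL

/-- from two chords with the common point `c` to the far slope -/
theorem block_slope {a k t P A B : ℤ} (ha : 0 < a) (hk : 0 < k) (ht : 0 < t)
    (h1 : a * P < A * t) (h2 : k * A < B * a) : k * P < B * t := by
  by_contra hcon
  rw [not_lt] at hcon
  have e1 := mul_lt_mul_of_pos_left h1 hk
  have e2 := mul_lt_mul_of_pos_left h2 ht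
  have e3 := mul_le_mul_of_nonneg_left hcon ha.le
  nlinarith

theorem block_right {F : ℤ → ℤ} {p q h c t r1 r2 : ℤ} (hh : 1 ≤ h) (hC : Ch F p q h)
    (hp : p ≤ c) (ht : 5 * h ≤ t) (h1 : c + t + 4 * h ≤ r1) (h2 : c + 48 * h ≤ r1)
    (h3 : r2 = r1 + 64 * h) (h4 : r2 ≤ q) :
    64 * h * (F (c + t) - F c) < (F r2 - F r1) * t := by
  have c1 := hC c (c + t) r1 hp (by linarith) (by linarith) h2 (by linarith)
  have c2 := hC c r1 r2 hp (by linarith) (by linarith) (by linarith) h4
  refine block_slope (a := r1 - c) (A := F r1 - F c) (by linarith) (by linarith) (by linarith) ?_ ?_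
  · have e : c + t - c = t := by ring
    rw [e] at c1
    exact c1
  · subst h3
    nlinarith

theorem block_left {F : ℤ → ℤ} {p q h c t l1 l2 : ℤ} (hh : 1 ≤ h) (hC : Ch F p q h)
    (hp : p ≤ l2) (ht : 5 * h ≤ t) (h1 : l1 + 4 * h ≤ c - t) (h2 : l1 + 48 * h ≤ c)
    (h3 : l1 = l2 + 64 * h) (h4 : c ≤ q) :
    (F l1 - F l2) * t < 64 * h * (F c - F (c - t)) := by
  have c1 := hC l1 (c - t) c (by linarith) h1 (by linarith) h2 h4
  have c2 := hC l2 l1 c hp (by linarith) (by linarith) (by linarith) h4
  have h5 : 64 * h * (-(F c - F (c - t))) < (-(F l1 - F l2)) * t := by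
    refine block_slope (a := c - l1) (A := -(F c - F l1)) (by linarith) (by linarith)
      (by linarith) ?_ ?_
    · nlinarith
    · subst h3
      nlinarith
  linarith

theorem t_block : S_block := by
  intro F p q h e v hh hC hL hp hq hv1 hv2
  obtain ⟨x, hx⟩ : ∃ x : ℤ, x = (F (e + 192 * h) - F (e + 128 * h)) -
    (F (e - 64 * h) - F (e - 128 * h)) := ⟨_, rfl⟩
  rw [← hx]
  -- all second differences of the middle scales
  have key : ∀ c t, v - h - 1 ≤ c → c ≤ v + 2 * h → 5 * h ≤ t → t ≤ 10 * h →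
      64 * h * D2 F c t < t * x := by
    intro c t h1 h2 h3 h4
    have a1 := block_right (F := F) (p := p) (q := q) (c := c) (t := t) (r1 := e + 128 * h)
      (r2 := e + 192 * h) hh hC (by linarith) h3 (by linarith) (by linarith) (by ring) hq
    have a2 := block_left (F := F) (p := p) (q := q) (c := c) (t := t) (l1 := e - 64 * h)
      (l2 := e - 128 * h) hh hC hp h3 (by linarith) (by linarith) (by ring) (by linarith)
    unfold D2
    rw [hx]
    nlinarith
  have hxpos : 0 < x := by
    obtain ⟨t, t1, t2, t3⟩ := (hL v (by linarith) (by linarith)).1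
    have h1 := key v t (by linarith) (by linarith) t1 t2
    by_contra hcon
    rw [not_lt] at hcon
    have h2 : t * x ≤ 0 := mul_nonpos_of_nonneg_of_nonpos (by linarith) hcon
    have h3 : 0 < 64 * h * D2 F v t := by
      have : 0 < 64 * h := by linarith
      exact mul_pos this (by linarith)
    linarith
  have key2 : ∀ c t, v - h - 1 ≤ c → c ≤ v + 2 * h → 5 * h ≤ t → t ≤ 10 * h →
      D2 F c t ≤ x / 6 := by
    intro c t h1 h2 h3 h4
    have h5 := key c t h1 h2 h3 h4
    rw [Int.le_ediv_iff_mul_le (by norm_num)]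
    rcases le_or_gt (D2 F c t) 0 with h6 | h6
    · linarith
    · by_contra hcon
      rw [not_le] at hcon
      have h7 : t * x ≤ 10 * h * x := mul_le_mul_of_nonneg_right h4 hxpos.le
      have h8 : h * x < h * (D2 F c t * 6) := mul_lt_mul_of_pos_left hcon (by linarith)
      have h9 : 0 < h * D2 F c t := mul_pos (by linarith) h6
      nlinarith
  have hX1 : 1 ≤ x / 6 := by
    obtain ⟨t, t1, t2, t3⟩ := (hL v (by linarith) (by linarith)).1
    exact t3.trans (key2 v t (by linarith) (by linarith) t1 t2)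
  have hDL : DL F (v - h - 1) (v + 2 * h) (2 * (x / 6)).toNat := by
    intro c u h1 h2 h3
    have h4 := (hL c (by linarith) (by linarith)).2 u (x / 6) h1 (by linarith) (by linarith)
      (fun t t1 t2 => key2 c t (by linarith) (by linarith) t1 t2)
    have h5 : (((2 * (x / 6)).toNat : ℕ) : ℤ) = 2 * (x / 6) := Int.toNat_of_nonneg (by linarith)
    rw [h5]
    exact h4
  have hdv : dv F (v - h - 1) (v + 2 * h) ≤ (2 * (x / 6)).toNat := Nat.sInf_le hDL
  have h5 : (((2 * (x / 6)).toNat : ℕ) : ℤ) = 2 * (x / 6) := Int.toNat_of_nonneg (by linarith)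
  have h6 : ((dv F (v - h - 1) (v + 2 * h) : ℕ) : ℤ) ≤ 2 * (x / 6) := by
    rw [← h5]
    exact_mod_cast hdv
  push_cast
  omega

end Pool.Agent.H188.NL
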