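import Pool.Agent.H188.NL.Defs

set_option autoImplicit false

/-!
# The chord property (N3)
-/

namespace Pool.Agent.H188.NL

open Pool.Agent.H188.LB (Tch Plus Minus cnt wF)

theorem t_chord : S_chord := by
  intro F hF a s h cs hh hs hG hP hcs x y z hx hxy hyz hxz hz
  have hcnt : ∀ S, 5 * h < 4 * S → S ≤ s → 12 * (cnt (TB F (a - s) (a + 2 * s)) S : ℤ) < S := by
    intro S h1 h2
    have h3 := hG S (by omega) h2
    have h4 : (0 : ℤ) ≤ (cnt (TB F (a - s) (a + 2 * s)) S : ℤ) := Int.natCast_nonneg _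
    omega
  obtain ⟨R1, -, -⟩ := Pool.Agent.H188.LB.t_reg F hF (x + 1) (z + 1) (F x) (F z) h h hh hh
    (by omega) (by rw [add_sub_cancel_right]) (by rw [add_sub_cancel_right])
    (by
      intro d hd hd2
      obtain ⟨φ, p1, p2, p3⟩ := (Pool.Agent.H188.LC.t_good (TB F (a - s) (a + 2 * s)) h s d hh hd
        hcnt).1 (by omega)
      exact ⟨φ, p1, p2, hP φ (by omega) (by omega) p3 _ (by omega) (by omega)⟩)
    (by
      intro d hd hd2
      obtain ⟨φ, p1, p2, p3, p4, p5⟩ := (Pool.Agent.H188.LC.t_good (TB F (a - s) (a + 2 * s)) h s d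
        hh hd hcnt).2 (by omega)
      exact ⟨φ, p1, p2, hP φ (by omega) (by omega) p3 _ (by omega) (by omega),
        hP (d - φ) (by omega) (by omega) p4 _ (by omega) (by omega),
        hP (d + φ) (by omega) (by omega) p5 _ (by omega) (by omega)⟩)
    (by
      intro d hd hd2
      obtain ⟨φ, p1, p2, p3⟩ := (Pool.Agent.H188.LC.t_good (TB F (a - s) (a + 2 * s)) h s d hh hd
        hcnt).1 (by omega)
      exact ⟨φ, p1, p2, hP φ (by omega) (by omega) p3 _ (by omega) (by omega)⟩)
    (by
      intro d hd hd2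
      obtain ⟨φ, p1, p2, p3, p4, p5⟩ := (Pool.Agent.H188.LC.t_good (TB F (a - s) (a + 2 * s)) h s d
        hh hd hcnt).2 (by omega)
      exact ⟨φ, p1, p2, hP φ (by omega) (by omega) p3 _ (by omega) (by omega),
        hP (d - φ) (by omega) (by omega) p4 _ (by omega) (by omega),
        hP (d + φ) (by omega) (by omega) p5 _ (by omega) (by omega)⟩)
  have h1 := R1 (y + 1) (by omega) (by omega)
  have e1 : y + 1 - 1 = y := by ring
  have e2 : z + 1 - (x + 1) = z - x := by ring
  have e3 : y + 1 - (x + 1) = y - x := by ring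
  rw [e1, e2, e3] at h1
  exact h1

end Pool.Agent.H188.NL
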