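import Pool.Agent.H188.NL.Defs

/-!
# N9: double counting
-/

set_option autoImplicit false

namespace Pool.Agent.H188.NL

namespace XCount

/-- at most four indices `i` -/
theorem four (a0 s t : ℤ) (hs : 1 ≤ s) (A : Finset ℕ)
    (hA : ∀ i ∈ A, a0 + (i : ℤ) * s - s ≤ t ∧ t ≤ a0 + (i : ℤ) * s + 2 * s) : A.card ≤ 4 := by
  rcases A.eq_empty_or_nonempty with h | h
  · rw [h, Finset.card_empty]
    omega
  · have hsub : A ⊆ Finset.Icc (A.min' h) (A.min' h + 3) := by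
      intro i hi
      rw [Finset.mem_Icc]
      refine ⟨A.min'_le i hi, ?_⟩
      have h1 := (hA i hi).1
      have h2 := (hA (A.min' h) (A.min'_mem h)).2
      by_contra hcon
      push Not at hcon
      have h3 : ((A.min' h : ℕ) : ℤ) + 4 ≤ (i : ℤ) := by omega
      have h4 : (((A.min' h : ℕ) : ℤ) + 4) * s ≤ (i : ℤ) * s :=
        mul_le_mul_of_nonneg_right h3 (by omega)
      nlinarith
    refine (Finset.card_le_card hsub).trans ?_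
    rw [Nat.card_Icc]
    omega

/-- at most two scales `j` -/
theorem two (K : ℕ) (hK : 2 ≤ K) (y : ℤ) (A : Finset ℕ)
    (hA : ∀ j ∈ A, (K : ℤ) ^ j ≤ y ∧ y < 2 * (K : ℤ) ^ (j + 1)) : A.card ≤ 2 := by
  rcases A.eq_empty_or_nonempty with h | h
  · rw [h, Finset.card_empty]
    omega
  · have hsub : A ⊆ Finset.Icc (A.min' h) (A.min' h + 1) := by
      intro j hj
      rw [Finset.mem_Icc]
      refine ⟨A.min'_le j hj, ?_⟩
      have h1 := (hA j hj).1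
      have h2 := (hA (A.min' h) (A.min'_mem h)).2
      by_contra hcon
      push Not at hcon
      have h3 : A.min' h + 2 ≤ j := by omega
      have hK' : (2 : ℤ) ≤ (K : ℤ) := by exact_mod_cast hK
      have h4 : (K : ℤ) ^ (A.min' h + 2) ≤ (K : ℤ) ^ j := pow_le_pow_right₀ (by omega) h3
      have h5 : (K : ℤ) ^ (A.min' h + 2) = (K : ℤ) * (K : ℤ) ^ (A.min' h + 1) := by
        rw [pow_succ' (K : ℤ) (A.min' h + 1)]
      have h6 : (0 : ℤ) < (K : ℤ) ^ (A.min' h + 1) := by positivity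
      nlinarith
    refine (Finset.card_le_card hsub).trans ?_
    rw [Nat.card_Icc]
    omega

open Classical in
theorem count_pairs (K J : ℕ) (a0 : ℤ) (hK : 2 ≤ K) (z : ℤ × ℤ) (m : ℕ → ℕ) :
    ∑ j ∈ Finset.range J, ∑ i ∈ Finset.range (m j),
      (if ((K : ℤ) ^ j ≤ z.2 ∧ z.2 < 2 * (K : ℤ) ^ (j + 1) ∧
        a0 + (i : ℤ) * (K : ℤ) ^ (j + 1) - (K : ℤ) ^ (j + 1) ≤ z.1 ∧
        z.1 ≤ a0 + (i : ℤ) * (K : ℤ) ^ (j + 1) + 2 * (K : ℤ) ^ (j + 1)) then 1 else 0) ≤ 8 := by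
  have h1 : ∀ j ∈ Finset.range J, ∑ i ∈ Finset.range (m j),
      (if ((K : ℤ) ^ j ≤ z.2 ∧ z.2 < 2 * (K : ℤ) ^ (j + 1) ∧
        a0 + (i : ℤ) * (K : ℤ) ^ (j + 1) - (K : ℤ) ^ (j + 1) ≤ z.1 ∧
        z.1 ≤ a0 + (i : ℤ) * (K : ℤ) ^ (j + 1) + 2 * (K : ℤ) ^ (j + 1)) then 1 else 0) ≤
      (if ((K : ℤ) ^ j ≤ z.2 ∧ z.2 < 2 * (K : ℤ) ^ (j + 1)) then 4 else 0) := by
    intro j _
    by_cases hj : (K : ℤ) ^ j ≤ z.2 ∧ z.2 < 2 * (K : ℤ) ^ (j + 1)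
    · rw [if_pos hj, ← Finset.card_filter]
      have hs : (1 : ℤ) ≤ (K : ℤ) ^ (j + 1) := by
        have : (0 : ℤ) < (K : ℤ) ^ (j + 1) := by positivity
        omega
      refine four a0 ((K : ℤ) ^ (j + 1)) z.1 hs _ ?_
      intro i hi
      rw [Finset.mem_filter] at hi
      exact ⟨hi.2.2.2.1, hi.2.2.2.2⟩
    · rw [if_neg hj]
      refine (Finset.sum_eq_zero fun i _ => ?_).le
      rw [if_neg]
      rintro ⟨h2, h3, -, -⟩
      exact hj ⟨h2, h3⟩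
  refine (Finset.sum_le_sum h1).trans ?_
  have h2 : ∑ j ∈ Finset.range J,
      (if ((K : ℤ) ^ j ≤ z.2 ∧ z.2 < 2 * (K : ℤ) ^ (j + 1)) then 4 else 0) =
      4 * ((Finset.range J).filter
        (fun j => (K : ℤ) ^ j ≤ z.2 ∧ z.2 < 2 * (K : ℤ) ^ (j + 1))).card := by
    rw [← Finset.sum_filter, Finset.sum_const, smul_eq_mul, mul_comm]
  rw [h2]
  have h3 := two K hK z.2 ((Finset.range J).filter
    (fun j => (K : ℤ) ^ j ≤ z.2 ∧ z.2 < 2 * (K : ℤ) ^ (j + 1))) (fun j hj => by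
      rw [Finset.mem_filter] at hj
      exact hj.2)
  omega

end XCount

open Classical in
theorem t_count : S_count := by
  intro K J a0 Z Bd hK hB
  have h1 : ∀ j ∈ Finset.range J, K ^ (j + 1) * ((Finset.range (K ^ (J - (j + 1)))).filter
      (fun i => Bd (j + 1) i)).card ≤ 100 * K * ∑ i ∈ Finset.range (K ^ (J - (j + 1))),
      ∑ z ∈ Z, (if ((K : ℤ) ^ j ≤ z.2 ∧ z.2 < 2 * (K : ℤ) ^ (j + 1) ∧
        a0 + (i : ℤ) * (K : ℤ) ^ (j + 1) - (K : ℤ) ^ (j + 1) ≤ z.1 ∧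
        z.1 ≤ a0 + (i : ℤ) * (K : ℤ) ^ (j + 1) + 2 * (K : ℤ) ^ (j + 1)) then 1 else 0) := by
    intro j hj
    have hj' := Finset.mem_range.1 hj
    calc K ^ (j + 1) * ((Finset.range (K ^ (J - (j + 1)))).filter
          (fun i => Bd (j + 1) i)).card
        = ∑ i ∈ (Finset.range (K ^ (J - (j + 1)))).filter (fun i => Bd (j + 1) i),
            K * K ^ j := by
          rw [Finset.sum_const, smul_eq_mul, pow_succ', mul_comm]
      _ ≤ ∑ i ∈ (Finset.range (K ^ (J - (j + 1)))).filter (fun i => Bd (j + 1) i),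
            100 * K * ∑ z ∈ Z, (if ((K : ℤ) ^ j ≤ z.2 ∧ z.2 < 2 * (K : ℤ) ^ (j + 1) ∧
              a0 + (i : ℤ) * (K : ℤ) ^ (j + 1) - (K : ℤ) ^ (j + 1) ≤ z.1 ∧
              z.1 ≤ a0 + (i : ℤ) * (K : ℤ) ^ (j + 1) + 2 * (K : ℤ) ^ (j + 1)) then 1 else 0) := by
          refine Finset.sum_le_sum fun i hi => ?_
          rw [Finset.mem_filter, Finset.mem_range] at hi
          have h2 := hB j i hj' hi.1 hi.2
          rw [← Finset.card_filter]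
          calc K * K ^ j ≤ K * _ := Nat.mul_le_mul_left K h2
            _ = _ := by ring
      _ ≤ ∑ i ∈ Finset.range (K ^ (J - (j + 1))),
            100 * K * ∑ z ∈ Z, (if ((K : ℤ) ^ j ≤ z.2 ∧ z.2 < 2 * (K : ℤ) ^ (j + 1) ∧
              a0 + (i : ℤ) * (K : ℤ) ^ (j + 1) - (K : ℤ) ^ (j + 1) ≤ z.1 ∧
              z.1 ≤ a0 + (i : ℤ) * (K : ℤ) ^ (j + 1) + 2 * (K : ℤ) ^ (j + 1)) then 1 else 0) :=
          Finset.sum_le_sum_of_subset (Finset.filter_subset _ _)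
      _ = _ := by rw [Finset.mul_sum]
  refine (Finset.sum_le_sum h1).trans ?_
  rw [← Finset.mul_sum]
  have h3 : ∑ j ∈ Finset.range J, ∑ i ∈ Finset.range (K ^ (J - (j + 1))),
      ∑ z ∈ Z, (if ((K : ℤ) ^ j ≤ z.2 ∧ z.2 < 2 * (K : ℤ) ^ (j + 1) ∧
        a0 + (i : ℤ) * (K : ℤ) ^ (j + 1) - (K : ℤ) ^ (j + 1) ≤ z.1 ∧
        z.1 ≤ a0 + (i : ℤ) * (K : ℤ) ^ (j + 1) + 2 * (K : ℤ) ^ (j + 1)) then 1 else 0) =
      ∑ z ∈ Z, ∑ j ∈ Finset.range J, ∑ i ∈ Finset.range (K ^ (J - (j + 1))),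
        (if ((K : ℤ) ^ j ≤ z.2 ∧ z.2 < 2 * (K : ℤ) ^ (j + 1) ∧
        a0 + (i : ℤ) * (K : ℤ) ^ (j + 1) - (K : ℤ) ^ (j + 1) ≤ z.1 ∧
        z.1 ≤ a0 + (i : ℤ) * (K : ℤ) ^ (j + 1) + 2 * (K : ℤ) ^ (j + 1)) then 1 else 0) := by
    rw [Finset.sum_comm]
    refine Finset.sum_congr rfl fun j _ => ?_
    rw [Finset.sum_comm]
  rw [h3]
  have h4 : ∑ z ∈ Z, ∑ j ∈ Finset.range J, ∑ i ∈ Finset.range (K ^ (J - (j + 1))),
        (if ((K : ℤ) ^ j ≤ z.2 ∧ z.2 < 2 * (K : ℤ) ^ (j + 1) ∧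
        a0 + (i : ℤ) * (K : ℤ) ^ (j + 1) - (K : ℤ) ^ (j + 1) ≤ z.1 ∧
        z.1 ≤ a0 + (i : ℤ) * (K : ℤ) ^ (j + 1) + 2 * (K : ℤ) ^ (j + 1)) then 1 else 0) ≤
      ∑ z ∈ Z, 8 :=
    Finset.sum_le_sum fun z _ => XCount.count_pairs K J a0 hK z (fun j => K ^ (J - (j + 1)))
  rw [Finset.sum_const, smul_eq_mul] at h4
  calc _ ≤ 100 * K * (Z.card * 8) := Nat.mul_le_mul_left _ h4
    _ = _ := by ring

end Pool.Agent.H188.NL
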