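import Pool.Agent.H188.LC.Order
import Pool.Agent.H188.LB.Word

/-!
# Order `n log n` for the number of occurrences of abelian squares: definitions and statements
-/

set_option autoImplicit false

namespace Pool.Agent.H188.NL

open Pool.Agent.H188.LB (Tch Plus Minus cnt wF)

/-- symmetric second difference -/
def D2 (F : ℤ → ℤ) (c u : ℤ) : ℤ := F (c + u) + F (c - u) - 2 * F c

/-- some progression of scale `u` has its centre in `[p, q]` -/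
def TB (F : ℤ → ℤ) (p q u : ℤ) : Prop := ∃ c l : ℤ, p ≤ c ∧ c ≤ q ∧ Tch F c u l

/-- good window `[a, a + s)` with respect to the smaller scale `h` -/
def GW (F : ℤ → ℤ) (a s h : ℤ) : Prop :=
  ∀ S, h ≤ S → S ≤ s → 100 * (cnt (TB F (a - s) (a + 2 * s)) S : ℤ) < S

/-- all second differences inside `[p, q]` are at most `d` -/
def DL (F : ℤ → ℤ) (p q : ℤ) (d : ℕ) : Prop :=
  ∀ c u, 0 ≤ u → p ≤ c - u → c + u ≤ q → |D2 F c u| ≤ d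

/-- the largest second difference inside `[p, q]` -/
noncomputable def dv (F : ℤ → ℤ) (p q : ℤ) : ℕ := sInf {d : ℕ | DL F p q d}

/-- untouched scales are convex left of `cs` -/
def PR (F : ℤ → ℤ) (a s h cs : ℤ) : Prop :=
  ∀ u, h ≤ u → u < 2 * s → ¬ TB F (a - s) (a + 2 * s) u →
    ∀ c, a - s ≤ c → c + 2 * u + 4 * h ≤ cs → Plus F c u

/-- chord property on `[p, q]` at scale `h` -/
def Ch (F : ℤ → ℤ) (p q h : ℤ) : Prop := ∀ x y z, p ≤ x → x + 4 * h ≤ y → y + 4 * h ≤ z →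
  x + 48 * h ≤ z → z ≤ q → (z - x) * (F y - F x) < (F z - F x) * (y - x)

/-- local property on `[p, q]` at scale `h` -/
def Lc (F : ℤ → ℤ) (p q h : ℤ) : Prop := ∀ c, p + 10 * h ≤ c → c ≤ q →
  (∃ t, 5 * h ≤ t ∧ t ≤ 10 * h ∧ 1 ≤ D2 F c t) ∧
  ∀ u X, 0 ≤ u → u ≤ 2 * h → 0 ≤ X → (∀ t, 5 * h ≤ t → t ≤ 10 * h → D2 F c t ≤ X) →
    |D2 F c u| ≤ 2 * X

/-- N1: existence of the switching point -/
def S_switch : Prop := ∀ F : ℤ → ℤ, Monotone F → ∀ a s h : ℤ, 1 ≤ h → 100 * h ≤ s →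
  GW F a s h → ∃ t0 cs, h ≤ t0 ∧ t0 < 2 * h ∧ a - s ≤ cs ∧ cs ≤ a + 2 * s + 1 ∧
    (∀ c, a - s ≤ c → c < cs → Plus F c t0) ∧ (∀ c, cs < c → c ≤ a + 2 * s → Minus F c t0)

/-- N2: left of the switching point all untouched scales are convex -/
def S_sign : Prop := ∀ F : ℤ → ℤ, Monotone F → ∀ a s h t0 cs : ℤ, 1 ≤ h → 1 ≤ t0 → t0 < 2 * h →
  cs ≤ a + 2 * s + 1 → (∀ c, a - s ≤ c → c < cs → Plus F c t0) → PR F a s h cs

/-- N3: chord property -/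
def S_chord : Prop := ∀ F : ℤ → ℤ, Monotone F → ∀ a s h cs : ℤ, 1 ≤ h → 100 * h ≤ s →
  GW F a s h → PR F a s h cs → cs ≤ a + 2 * s + 1 → Ch F (a - s) (cs - 22 * h) h

/-- N4: local property -/
def S_local : Prop := ∀ F : ℤ → ℤ, Monotone F → ∀ a s h cs : ℤ, 1 ≤ h → 100 * h ≤ s →
  GW F a s h → PR F a s h cs → cs ≤ a + 2 * s + 1 → Lc F (a - s) (cs - 22 * h) h

/-- N5: the deviation of a small window is at most a difference of far slopes -/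
def S_block : Prop := ∀ F : ℤ → ℤ, ∀ p q h e v : ℤ, 1 ≤ h → Ch F p q h → Lc F p q h →
  p ≤ e - 128 * h → e + 192 * h ≤ q → e ≤ v → v < e + 64 * h →
  ((1 + dv F (v - h - 1) (v + 2 * h) : ℕ) : ℤ) ≤
    (F (e + 192 * h) - F (e + 128 * h)) - (F (e - 64 * h) - F (e - 128 * h))

/-- N6: telescoping -/
def S_tele : Prop := ∀ F : ℤ → ℤ, ∀ p q h a : ℤ, ∀ N n d : ℕ, 1 ≤ h → 1 ≤ N → Ch F p q h →
  p ≤ a - 64 * h * (N + 1) → a + 64 * h * (n + 2 + N) ≤ q →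
  DL F (a - 64 * h * (N + 1)) (a + 64 * h * (n + 2 + N)) d →
  (N : ℤ) * ∑ k ∈ Finset.range n,
    ((F (a + 64 * h * k + 192 * h) - F (a + 64 * h * k + 128 * h)) -
      (F (a + 64 * h * k - 64 * h) - F (a + 64 * h * k - 128 * h))) ≤ 8 * d

/-- N7: logarithms -/
def S_log : Prop := ∀ (N d : ℕ) (f : ℕ → ℕ) (R : Finset ℕ), 2 ≤ N →
  R ⊆ Finset.range (1024 * N) → 768 * N ≤ R.card → (∀ i, i < 1024 * N → f i ≤ d) →
  N * ∑ i ∈ R, (1 + f i) ≤ 1024 * d →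
  ∑ i ∈ Finset.range (1024 * N), Real.log (1 + f i) ≤
    1024 * N * Real.log (1 + d) - 768 * N * (2 * Real.log (1024 * N) - 21 * Real.log 2)

open Classical in
/-- N8: hierarchy of windows -/
def S_hier : Prop := ∀ (K J : ℕ) (γ : ℝ) (φ : ℕ → ℕ → ℝ) (G : ℕ → ℕ → Prop), 1 ≤ K → 0 ≤ γ →
  (∀ j i, 0 ≤ φ j i) →
  (∀ j i, j < J → i < K ^ (J - (j + 1)) →
    ∑ r ∈ Finset.range K, φ j (i * K + r) ≤ K * φ (j + 1) i) →
  (∀ j i, j < J → i < K ^ (J - (j + 1)) → G (j + 1) i →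
    ∑ r ∈ Finset.range K, φ j (i * K + r) ≤ K * φ (j + 1) i - K * γ) →
  γ * J * (K : ℝ) ^ J ≤ (K : ℝ) ^ J * φ J 0 + γ * ∑ j ∈ Finset.range J,
    (K : ℝ) ^ (j + 1) * (((Finset.range (K ^ (J - (j + 1)))).filter
      (fun i => ¬ G (j + 1) i)).card : ℝ)

open Classical in
/-- N9: double counting -/
def S_count : Prop := ∀ (K J : ℕ) (a0 : ℤ) (Z : Finset (ℤ × ℤ)) (Bd : ℕ → ℕ → Prop), 2 ≤ K →
  (∀ j i, j < J → i < K ^ (J - (j + 1)) → Bd (j + 1) i →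
    K ^ j ≤ 100 * (Z.filter (fun z => (K : ℤ) ^ j ≤ z.2 ∧ z.2 < 2 * (K : ℤ) ^ (j + 1) ∧
      a0 + i * (K : ℤ) ^ (j + 1) - (K : ℤ) ^ (j + 1) ≤ z.1 ∧
      z.1 ≤ a0 + i * (K : ℤ) ^ (j + 1) + 2 * (K : ℤ) ^ (j + 1))).card) →
  ∑ j ∈ Finset.range J, K ^ (j + 1) * ((Finset.range (K ^ (J - (j + 1)))).filter
    (fun i => Bd (j + 1) i)).card ≤ 800 * K * Z.card

/-- the occurrences of abelian squares -/
def occ (w : List Bool) : Set (ℕ × ℕ) :=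
  {p | ∃ x u v y : List Bool, w = x ++ (u ++ v) ++ y ∧ u ≠ [] ∧
    (u.count true, u.count false) = (v.count true, v.count false) ∧
    p = (x.length + 1, x.length + (u ++ v).length)}

/-- N10: from columns to occurrences -/
def S_occ : Prop := ∀ (w : List Bool) (b : Bool),
  (∀ x, wF w b x ≤ w.count (!b)) ∧
  ∀ Z : Finset (ℤ × ℤ), (∀ z ∈ Z, 1 ≤ z.2 ∧ z.2 ≤ z.1 ∧ z.1 + z.2 ≤ w.count b ∧
    ∃ l, Tch (fun x => (wF w b x : ℤ)) z.1 z.2 l) → Z.card ≤ (occ w).ncard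

/-- N11: final arithmetic -/
def S_fin : Prop := ∀ n A J m : ℕ, n ≤ 2 * A → A < 7 * (2 ^ 48) ^ (J + 1) → 13 ≤ J →
  (33 * (J : ℝ) - 204) * ((2 : ℝ) ^ 48) ^ J ≤ 180000 * (2 : ℝ) ^ 48 * m →
  (n : ℝ) * Real.log n ≤ (2 : ℝ) ^ 130 * m

end Pool.Agent.H188.NL
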