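import Pool.Agent.H188.NL.Defs

set_option autoImplicit false

namespace Pool.Agent.H188.NL

theorem t_fin : S_fin := by
  intro n A J m hn hA hJ hm
  obtain ⟨K, hK⟩ : ∃ K : ℝ, K = (2 : ℝ) ^ 48 := ⟨_, rfl⟩
  have hK0 : 0 < K := by rw [hK]; positivity
  have hK1 : 1 ≤ K := by
    rw [hK]
    exact one_le_pow₀ (by norm_num)
  have hJ' : (13 : ℝ) ≤ J := by exact_mod_cast hJ
  have hm0 : (0 : ℝ) ≤ m := Nat.cast_nonneg m
  have hAr : (A : ℝ) ≤ 7 * K ^ (J + 1) := by
    have h1 : (A : ℝ) < ((7 * (2 ^ 48) ^ (J + 1) : ℕ) : ℝ) := by exact_mod_cast hA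
    rw [Nat.cast_mul, Nat.cast_pow, Nat.cast_pow] at h1
    rw [hK]
    exact h1.le
  have hnr : (n : ℝ) ≤ 14 * K ^ (J + 1) := by
    have h1 : (n : ℝ) ≤ 2 * A := by exact_mod_cast hn
    linarith
  rw [← hK] at hm
  have h130 : (2 : ℝ) ^ 130 = 2 ^ 34 * K ^ 2 := by
    rw [hK, ← pow_mul, ← pow_add]
  by_cases hn0 : n = 0
  · rw [hn0, Nat.cast_zero, zero_mul]
    exact mul_nonneg (pow_nonneg zero_le_two _) hm0
  · have hnpos : (0 : ℝ) < n := by exact_mod_cast Nat.pos_of_ne_zero hn0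
    have hn1 : (1 : ℝ) ≤ n := by exact_mod_cast Nat.one_le_iff_ne_zero.2 hn0
    have hlog2 : Real.log 2 < 0.6931471808 := Real.log_two_lt_d9
    have hlog20 : 0 < Real.log 2 := Real.log_pos (by norm_num)
    have hlogK : Real.log K = 48 * Real.log 2 := by
      rw [hK, Real.log_pow]
      norm_num
    have hlog14 : Real.log 14 ≤ 4 * Real.log 2 := by
      have h1 : Real.log 14 ≤ Real.log (2 ^ 4) := Real.log_le_log (by norm_num) (by norm_num)
      rw [Real.log_pow] at h1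
      exact_mod_cast h1
    have hKJ : 0 < K ^ (J + 1) := by positivity
    have hlogn : Real.log n ≤ Real.log 14 + ((J : ℝ) + 1) * (48 * Real.log 2) := by
      have h1 : Real.log n ≤ Real.log (14 * K ^ (J + 1)) := Real.log_le_log hnpos hnr
      rw [Real.log_mul (by norm_num) hKJ.ne', Real.log_pow, hlogK] at h1
      push_cast at h1
      exact h1
    have hlogn2 : Real.log n ≤ 37 * J := by
      have h2 : Real.log n ≤ (48 * (J : ℝ) + 52) * Real.log 2 := by linarith
      have h3 : (48 * (J : ℝ) + 52) * Real.log 2 ≤ (48 * (J : ℝ) + 52) * 0.6931471808 :=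
        mul_le_mul_of_nonneg_left hlog2.le (by linarith)
      linarith
    have hlogn0 : 0 ≤ Real.log n := Real.log_nonneg hn1
    obtain ⟨P, hP⟩ : ∃ P : ℝ, P = K ^ J := ⟨_, rfl⟩
    have hP0 : 0 < P := by rw [hP]; positivity
    have hPK : K ^ (J + 1) = P * K := by rw [hP, pow_succ]
    rw [hPK] at hnr
    rw [← hP] at hm
    have h17 : 17 * (J : ℝ) * P ≤ 180000 * K * m :=
      le_trans (mul_le_mul_of_nonneg_right (by linarith) hP0.le) hm
    have h1 : (n : ℝ) * Real.log n ≤ 14 * (P * K) * (37 * J) :=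
      mul_le_mul hnr hlogn2 hlogn0 (by positivity)
    have h2 : 14 * (P * K) * (37 * (J : ℝ)) = 518 / 17 * K * (17 * J * P) := by ring
    have h3 : 518 / 17 * K * (17 * (J : ℝ) * P) ≤ 518 / 17 * K * (180000 * K * m) :=
      mul_le_mul_of_nonneg_left h17 (by positivity)
    have h4 : 518 / 17 * K * (180000 * K * m) = 518 * 180000 / 17 * (K ^ 2 * m) := by ring
    have h5 : 518 * 180000 / 17 * (K ^ 2 * m) ≤ 2 ^ 34 * (K ^ 2 * m) :=
      mul_le_mul_of_nonneg_right (by norm_num) (by positivity)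
    rw [h130]
    linarith

end Pool.Agent.H188.NL
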