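import Pool.Agent.H188.NL.Main
import Pool.Agent.H188.NL.Block
import Pool.Agent.H188.NL.Count

set_option autoImplicit false

namespace Pool.Agent.H188.NL

open Pool.Agent.H188.LB (Tch wF wF_mono)

theorem word_bound (hocc : S_occ) (w : List Bool) (hw : 2 ^ 628 ≤ w.length) :
    (w.length : ℝ) * Real.log w.length ≤ (2 : ℝ) ^ 130 * ((occ w).ncard : ℝ) := by
  classical
  obtain ⟨K, hK⟩ : ∃ K : ℕ, K = 2 ^ 48 := ⟨_, rfl⟩
  obtain ⟨N, hN⟩ : ∃ N : ℕ, N = 2 ^ 38 := ⟨_, rfl⟩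
  have hKN : K = 1024 * N := by rw [hK, hN]; norm_num
  have hN16 : 16 ≤ N := by rw [hN]; norm_num
  obtain ⟨b, hb⟩ : ∃ b : Bool, w.count (!b) ≤ w.count b := by
    rcases le_total (w.count true) (w.count false) with h | h
    · exact ⟨false, h⟩
    · exact ⟨true, h⟩
  have htot := List.count_not_add_count w b
  obtain ⟨A, hA⟩ : ∃ A, A = w.count b := ⟨_, rfl⟩
  obtain ⟨n, hn⟩ : ∃ n, n = w.length := ⟨_, rfl⟩
  rw [← hA] at hb htot
  rw [← hn] at hw htot ⊢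
  have hpow : (2 : ℕ) ^ 628 = 16 * K ^ 13 := by
    rw [hK, ← pow_mul, show (16 : ℕ) = 2 ^ 4 by norm_num, ← pow_add]
  rw [hpow] at hw
  clear hpow
  have hKc : (K : ℝ) = (2 : ℝ) ^ 48 := by rw [hK]; norm_num
  have hA7 : K ^ 13 ≤ A / 7 := by omega
  have hKpos : 1 < K := by rw [hK]; norm_num
  have hA70 : A / 7 ≠ 0 := by
    have : 1 ≤ K ^ 13 := Nat.one_le_pow _ _ (by omega)
    omega
  obtain ⟨J, hJ⟩ : ∃ J, J = Nat.log K (A / 7) := ⟨_, rfl⟩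
  have hJ13 : 13 ≤ J := by
    rw [hJ]
    exact Nat.le_log_of_pow_le hKpos hA7
  have hJ1 : K ^ J ≤ A / 7 := by
    rw [hJ]
    exact Nat.pow_log_le_self K hA70
  have hJ2 : A / 7 < K ^ (J + 1) := by
    rw [hJ]
    exact Nat.lt_pow_succ_log_self hKpos _
  have hJ3 : 7 * K ^ J ≤ A := by omega
  have hJ4 : A < 7 * K ^ (J + 1) := by omega
  obtain ⟨hr, ho⟩ := hocc w b
  obtain ⟨F, hFd⟩ : ∃ F : ℤ → ℤ, F = fun x => (wF w b x : ℤ) := ⟨_, rfl⟩
  have hF : Monotone F := by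
    rw [hFd]
    exact fun x y h => Int.ofNat_le.mpr (wF_mono w b h)
  obtain ⟨Z, hZd⟩ : ∃ Z : Finset (ℤ × ℤ), Z = ((Finset.Icc (0 : ℤ) A ×ˢ Finset.Icc (1 : ℤ) A).filter
    (fun z => z.2 ≤ z.1 ∧ z.1 + z.2 ≤ (A : ℤ) ∧ ∃ l, Tch F z.1 z.2 l)) := ⟨_, rfl⟩
  have hZ : ∀ c u, 1 ≤ u → u ≤ c → c + u ≤ (A : ℤ) → (∃ l, Tch F c u l) → (c, u) ∈ Z := by
    intro c u h1 h2 h3 h4
    rw [hZd, Finset.mem_filter, Finset.mem_product, Finset.mem_Icc, Finset.mem_Icc]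
    exact ⟨⟨⟨by show (0 : ℤ) ≤ c; omega, by show c ≤ (A : ℤ); omega⟩,
      ⟨h1, by show u ≤ (A : ℤ); omega⟩⟩, h2, h3, h4⟩
  have hZo : Z.card ≤ (occ w).ncard := by
    apply ho
    intro z hz
    rw [hZd, Finset.mem_filter, Finset.mem_product, Finset.mem_Icc, Finset.mem_Icc] at hz
    rw [← hA, ← hFd]
    exact ⟨hz.1.2.1, hz.2.1, hz.2.2.1, hz.2.2.2⟩
  have hl2 : 0 < Real.log 2 := Real.log_pos (by norm_num)
  have hlK : Real.log K = 48 * Real.log 2 := by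
    rw [hKc, Real.log_pow]
    norm_num
  have hmain := main_bound t_block t_count hF hN16 hKN (A := (A : ℤ)) hZ
    (by exact_mod_cast hJ3) (γ := 225 / 4 * Real.log 2) (by rw [hlK]; ring) (by positivity)
  have hKr : (0 : ℝ) < (K : ℝ) ^ J := by positivity
  have hdv : dv F (2 * (K : ℤ) ^ J - 1) (5 * (K : ℤ) ^ J) ≤ A := by
    refine (dv_le (DL_range hF _ _)).trans ?_
    have h1 := hr (5 * (K : ℤ) ^ J)
    rw [hFd]
    simp only
    omega
  have hlog : Real.log (1 + dv F (2 * (K : ℤ) ^ J - 1) (5 * (K : ℤ) ^ J)) ≤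
      (48 * J + 51) * Real.log 2 := by
    have h1 : (1 : ℝ) + dv F (2 * (K : ℤ) ^ J - 1) (5 * (K : ℤ) ^ J) ≤ 8 * (K : ℝ) ^ (J + 1) := by
      have h2 : 1 + dv F (2 * (K : ℤ) ^ J - 1) (5 * (K : ℤ) ^ J) ≤ 8 * K ^ (J + 1) := by omega
      exact_mod_cast h2
    have h3 := Real.log_le_log (by positivity) h1
    rw [Real.log_mul (by norm_num) (by positivity), Real.log_pow, hlK] at h3
    have h8 : Real.log 8 = 3 * Real.log 2 := by
      have : (8 : ℝ) = 2 ^ 3 := by norm_num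
      rw [this, Real.log_pow]
      norm_num
    rw [h8] at h3
    push_cast at h3
    linarith
  have h5 := mul_le_mul_of_nonneg_left hlog hKr.le
  have h6 : (225 / 4 * J * (K : ℝ) ^ J) * Real.log 2 ≤
      ((K : ℝ) ^ J * (48 * J + 51) + 225 / 4 * (800 * K * Z.card)) * Real.log 2 := by
    have e1 : (225 / 4 * J * (K : ℝ) ^ J) * Real.log 2 = 225 / 4 * Real.log 2 * J * (K : ℝ) ^ J := by
      ring
    rw [e1]
    linarith
  have h7 := le_of_mul_le_mul_right h6 hl2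
  have hZr : (Z.card : ℝ) ≤ ((occ w).ncard : ℝ) := by exact_mod_cast hZo
  have h8 : 180000 * (K : ℝ) * Z.card ≤ 180000 * (K : ℝ) * ((occ w).ncard : ℝ) :=
    mul_le_mul_of_nonneg_left hZr (by positivity)
  refine t_fin n A J (occ w).ncard (by omega) (by rw [← hK]; exact hJ4) hJ13 ?_
  rw [← hKc]
  linarith

end Pool.Agent.H188.NL
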