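import Pool.Agent.H188.NL.Defs

set_option autoImplicit false

namespace Pool.Agent.H188.NL

theorem hier_sum (f : ℕ → ℝ) (n K : ℕ) :
    ∑ i ∈ Finset.range (n * K), f i =
      ∑ i ∈ Finset.range n, ∑ r ∈ Finset.range K, f (i * K + r) := by
  induction n with
  | zero => simp
  | succ n ih =>
    rw [Nat.succ_mul, Finset.sum_range_add, ih, Finset.sum_range_succ]

theorem t_hier : S_hier := by
  classical
  intro K J γ φ G hK hγ hφ h1 h2
  have hKr : (1 : ℝ) ≤ (K : ℝ) := by exact_mod_cast hK
  have key : ∀ m : ℕ, m ≤ J →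
      γ * m * (K : ℝ) ^ J + ∑ i ∈ Finset.range (K ^ J), φ 0 i ≤
        (K : ℝ) ^ m * ∑ i ∈ Finset.range (K ^ (J - m)), φ m i +
        γ * ∑ j ∈ Finset.range m, (K : ℝ) ^ (j + 1) *
          (((Finset.range (K ^ (J - (j + 1)))).filter (fun i => ¬ G (j + 1) i)).card : ℝ) := by
    intro m
    induction m with
    | zero =>
      intro _
      simp
    | succ j ih =>
      intro hj
      have h3 := ih (by omega)
      have hjJ : j < J := by omega
      set n := K ^ (J - (j + 1)) with hn
      have hpow : K ^ (J - j) = n * K := by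
        rw [hn, ← pow_succ]
        congr 1
        omega
      have h4 : ∑ i ∈ Finset.range (K ^ (J - j)), φ j i ≤
          ∑ i ∈ Finset.range n, ((K : ℝ) * φ (j + 1) i - if G (j + 1) i then (K : ℝ) * γ else 0) := by
        rw [hpow, hier_sum]
        apply Finset.sum_le_sum
        intro i hi
        have hi' := Finset.mem_range.1 hi
        split_ifs with hG
        · exact h2 j i hjJ hi' hG
        · rw [sub_zero]
          exact h1 j i hjJ hi'
      have h5 : ∑ i ∈ Finset.range n, ((K : ℝ) * φ (j + 1) i - if G (j + 1) i then (K : ℝ) * γ else 0) =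
          (K : ℝ) * ∑ i ∈ Finset.range n, φ (j + 1) i -
            (((Finset.range n).filter (fun i => G (j + 1) i)).card : ℝ) * ((K : ℝ) * γ) := by
        rw [Finset.sum_sub_distrib, ← Finset.mul_sum, ← Finset.sum_filter, Finset.sum_const,
          nsmul_eq_mul]
      have h6 : (((Finset.range n).filter (fun i => G (j + 1) i)).card : ℝ) +
          (((Finset.range n).filter (fun i => ¬ G (j + 1) i)).card : ℝ) = (n : ℝ) := by
        have h7 := Finset.card_filter_add_card_filter_not (s := Finset.range n)
          (fun i => G (j + 1) i)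
        rw [Finset.card_range] at h7
        exact_mod_cast h7
      have h8 : (K : ℝ) ^ j * ∑ i ∈ Finset.range (K ^ (J - j)), φ j i ≤
          (K : ℝ) ^ j * ((K : ℝ) * ∑ i ∈ Finset.range n, φ (j + 1) i -
            (((Finset.range n).filter (fun i => G (j + 1) i)).card : ℝ) * ((K : ℝ) * γ)) := by
        apply mul_le_mul_of_nonneg_left _ (by positivity)
        rw [← h5]
        exact h4
      have h9 : (K : ℝ) ^ (j + 1) * (n : ℝ) = (K : ℝ) ^ J := by
        rw [hn]
        push_cast
        rw [← pow_add]
        congr 1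
        omega
      rw [Finset.sum_range_succ, ← hn]
      set g1 := (((Finset.range n).filter (fun i => G (j + 1) i)).card : ℝ) with hg1
      set g2 := (((Finset.range n).filter (fun i => ¬ G (j + 1) i)).card : ℝ) with hg2
      have h10 : g1 = n - g2 := by linarith
      have h11 : (K : ℝ) ^ (j + 1) = (K : ℝ) ^ j * K := pow_succ _ _
      have h12 : (K : ℝ) ^ j * ((K : ℝ) * ∑ i ∈ Finset.range n, φ (j + 1) i - g1 * ((K : ℝ) * γ)) =
          (K : ℝ) ^ (j + 1) * ∑ i ∈ Finset.range n, φ (j + 1) i - γ * (K : ℝ) ^ J +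
            γ * ((K : ℝ) ^ (j + 1) * g2) := by
        rw [h10, ← h9, h11]
        ring
      rw [h12] at h8
      push_cast
      linarith
  have h3 := key J le_rfl
  rw [Nat.sub_self, pow_zero, Finset.sum_range_one] at h3
  have h4 : 0 ≤ ∑ i ∈ Finset.range (K ^ J), φ 0 i := Finset.sum_nonneg fun i _ => hφ 0 i
  linarith

end Pool.Agent.H188.NL
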