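import Pool.Agent.H188.NL.Defs

/-!
# N4: local property
-/

set_option autoImplicit false

namespace Pool.Agent.H188.NL

open Pool.Agent.H188.LB (Tch Plus Minus cnt wF)

namespace XLocal

open Classical in
theorem card_le_cnt (B : ℤ → Prop) (S p q u : ℤ) (h1 : S ≤ u + p) (h2 : u + q < 2 * S) :
    ((Finset.Icc p q).filter (fun t => B (u + t))).card ≤ cnt B S := by
  unfold cnt
  apply Finset.card_le_card_of_injOn (fun t => u + t)
  · intro t ht
    have ht' := Finset.mem_filter.mp (Finset.mem_coe.mp ht)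
    have ht2 := Finset.mem_Icc.mp ht'.1
    refine Finset.mem_coe.mpr (Finset.mem_filter.mpr ⟨Finset.mem_Ico.mpr ⟨?_, ?_⟩, ht'.2⟩)
    · have := ht2.1
      show S ≤ u + t
      omega
    · have := ht2.2
      show u + t < 2 * S
      omega
  · intro x _ y _ h
    have h' : u + x = u + y := h
    omega

theorem exists_untouched {F : ℤ → ℤ} {a s h : ℤ} (hh : 1 ≤ h) (hs : 100 * h ≤ s)
    (hG : GW F a s h) (p u : ℤ) (hp : 3 * h ≤ p) (hp2 : p ≤ 7 * h) (hu : 0 ≤ u) (hu2 : u ≤ 2 * h) :
    ∃ t, p ≤ t ∧ t ≤ p + h ∧ ¬ TB F (a - s) (a + 2 * s) t ∧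
      ¬ TB F (a - s) (a + 2 * s) (u + t) := by
  classical
  by_contra hcon
  have hall : ∀ t, p ≤ t → t ≤ p + h → TB F (a - s) (a + 2 * s) (0 + t) ∨
      TB F (a - s) (a + 2 * s) (u + t) := by
    intro t h1 h2
    by_contra h3
    rw [not_or, zero_add] at h3
    exact hcon ⟨t, h1, h2, h3.1, h3.2⟩
  have hsub : Finset.Icc p (p + h) ⊆
      ((Finset.Icc p (p + h)).filter (fun t => TB F (a - s) (a + 2 * s) (0 + t))) ∪
        ((Finset.Icc p (p + h)).filter (fun t => TB F (a - s) (a + 2 * s) (u + t))) := by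
    intro t ht
    have ht2 := Finset.mem_Icc.mp ht
    rcases hall t ht2.1 ht2.2 with h1 | h1
    · exact Finset.mem_union_left _ (Finset.mem_filter.mpr ⟨ht, h1⟩)
    · exact Finset.mem_union_right _ (Finset.mem_filter.mpr ⟨ht, h1⟩)
  have h1 := (Finset.card_le_card hsub).trans (Finset.card_union_le _ _)
  have h2 := card_le_cnt (TB F (a - s) (a + 2 * s)) p p (p + h) 0 (by omega) (by omega)
  have h3 := card_le_cnt (TB F (a - s) (a + 2 * s)) (u + p) p (p + h) u (by omega) (by omega)
  have h4 := hG p (by omega) (by omega)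
  have h5 := hG (u + p) (by omega) (by omega)
  rw [Int.card_Icc] at h1
  omega

theorem plus_D2 {F : ℤ → ℤ} (hF : Monotone F) {c t : ℤ} (h : Plus F c t) : 1 ≤ D2 F c t := by
  unfold Plus at h
  unfold D2
  have h1 : F (c - t - 1) ≤ F (c - t) := hF (by omega)
  have h2 : F (c + t - 1) ≤ F (c + t) := hF (by omega)
  omega

end XLocal

/-- N4 -/
theorem t_local : S_local := by
  intro F hF a s h cs hh hs hG hPR _ c hc1 hc2
  obtain ⟨t, ht1, ht2, ht3, -⟩ := XLocal.exists_untouched hh hs hG (7 * h) 0 (by omega) le_rfl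
    le_rfl (by omega)
  refine ⟨⟨t, by omega, by omega, ?_⟩, ?_⟩
  · exact XLocal.plus_D2 hF (hPR t (by omega) (by omega) ht3 c (by omega) (by omega))
  · intro u X hu1 hu2 hX hall
    obtain ⟨τ, hτ1, hτ2, hτ3, hτ4⟩ := XLocal.exists_untouched hh hs hG (3 * h) u le_rfl
      (by omega) hu1 hu2
    -- upper bound
    have a1 := XLocal.plus_D2 hF (hPR t (by omega) (by omega) ht3 (c + u) (by omega) (by omega))
    have a2 := XLocal.plus_D2 hF (hPR t (by omega) (by omega) ht3 (c - u) (by omega) (by omega))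
    have a3 := hall (t + u) (by omega) (by omega)
    have a4 := hall (t - u) (by omega) (by omega)
    -- lower bound
    have b1 := XLocal.plus_D2 hF
      (hPR τ (by omega) (by omega) hτ3 (c + u + τ) (by omega) (by omega))
    have b2 := XLocal.plus_D2 hF
      (hPR τ (by omega) (by omega) hτ3 (c - u - τ) (by omega) (by omega))
    have b3 := XLocal.plus_D2 hF
      (hPR (u + τ) (by omega) (by omega) hτ4 c (by omega) (by omega))
    have b4 := hall (u + 2 * τ) (by omega) (by omega)
    unfold D2 at a1 a2 a3 a4 b1 b2 b3 b4 ⊢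
    rw [show c + u + t = c + (t + u) by ring, show c + u - t = c - (t - u) by ring] at a1
    rw [show c - u + t = c + (t - u) by ring, show c - u - t = c - (t + u) by ring] at a2
    rw [show c + u + τ + τ = c + (u + 2 * τ) by ring, show c + u + τ - τ = c + u by ring,
      show c + u + τ = c + (u + τ) by ring] at b1
    rw [show c - u - τ + τ = c - u by ring, show c - u - τ - τ = c - (u + 2 * τ) by ring,
      show c - u - τ = c - (u + τ) by ring] at b2
    rw [abs_le]
    constructor
    · linarith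
    · linarith

end Pool.Agent.H188.NL
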