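import Pool.Agent.H188.NL.Defs

/-!
# N7: logarithms
-/

set_option autoImplicit false

namespace Pool.Agent.H188.NL

theorem t_log : S_log := by
  intro N d f R hN hR hRc hf hs
  have hN' : (2 : ℝ) ≤ N := by exact_mod_cast hN
  have hN0 : (0 : ℝ) < N := by linarith
  have hd : (0 : ℝ) ≤ d := Nat.cast_nonneg d
  have hd1 : (0 : ℝ) < 1 + d := by linarith
  set K : ℝ := 1024 * N with hK
  have hK0 : 0 < K := by positivity
  set α : ℝ := 2 ^ 21 * (1 + d) / K ^ 2 with hα
  have hα0 : 0 < α := by positivity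
  have hlα : Real.log α = 21 * Real.log 2 + Real.log (1 + d) - 2 * Real.log K := by
    rw [hα, Real.log_div (by positivity) (by positivity), Real.log_mul (by positivity)
      (by positivity), Real.log_pow, Real.log_pow]
    push_cast
    ring
  have hone : ∀ i : ℕ, (0 : ℝ) < 1 + (f i : ℝ) := fun i => by positivity
  -- on `R`
  have h1 : ∀ i, Real.log (1 + (f i : ℝ)) ≤ (1 + (f i : ℝ)) / α - 1 + Real.log α := by
    intro i
    have h2 := Real.log_le_sub_one_of_pos (div_pos (hone i) hα0)
    rw [Real.log_div (hone i).ne' hα0.ne'] at h2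
    linarith
  have h3 : ∑ i ∈ R, Real.log (1 + (f i : ℝ)) ≤
      (∑ i ∈ R, (1 + (f i : ℝ))) / α - R.card + R.card * Real.log α := by
    refine (Finset.sum_le_sum fun i _ => h1 i).trans (le_of_eq ?_)
    rw [Finset.sum_add_distrib, Finset.sum_sub_distrib, Finset.sum_const, Finset.sum_const,
      Finset.sum_div, nsmul_eq_mul, nsmul_eq_mul, mul_one]
  have hs' : (N : ℝ) * ∑ i ∈ R, (1 + (f i : ℝ)) ≤ 1024 * d := by exact_mod_cast hs
  have h4 : (∑ i ∈ R, (1 + (f i : ℝ))) / α ≤ 512 * N := by
    rw [div_le_iff₀ hα0]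
    have h5 : 512 * (N : ℝ) * α = 1024 * (1 + d) / N := by
      rw [hα, hK]
      field_simp
      ring
    rw [h5, le_div_iff₀ hN0]
    nlinarith
  have hRc' : 768 * (N : ℝ) ≤ R.card := by exact_mod_cast hRc
  have h6 : ∑ i ∈ R, Real.log (1 + (f i : ℝ)) ≤ R.card * Real.log α := by linarith
  -- off `R`
  have h7 : ∑ i ∈ Finset.range (1024 * N) \ R, Real.log (1 + (f i : ℝ)) ≤
      (1024 * N - R.card) * Real.log (1 + d) := by
    have h8 : ∑ i ∈ Finset.range (1024 * N) \ R, Real.log (1 + (f i : ℝ)) ≤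
        ∑ _i ∈ Finset.range (1024 * N) \ R, Real.log (1 + (d : ℝ)) := by
      refine Finset.sum_le_sum fun i hi => ?_
      have hi' : i < 1024 * N := Finset.mem_range.1 (Finset.mem_sdiff.1 hi).1
      refine Real.log_le_log (hone i) ?_
      have : (f i : ℝ) ≤ d := by exact_mod_cast hf i hi'
      linarith
    refine h8.trans (le_of_eq ?_)
    rw [Finset.sum_const, nsmul_eq_mul, Finset.card_sdiff_of_subset hR, Finset.card_range,
      Nat.cast_sub (by simpa using Finset.card_le_card hR)]
    push_cast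
    ring
  have h9 : ∑ i ∈ Finset.range (1024 * N), Real.log (1 + (f i : ℝ)) =
      ∑ i ∈ Finset.range (1024 * N) \ R, Real.log (1 + (f i : ℝ)) +
        ∑ i ∈ R, Real.log (1 + (f i : ℝ)) := (Finset.sum_sdiff hR).symm
  have h10 : 0 ≤ 2 * Real.log K - 21 * Real.log 2 := by
    have h11 : Real.log ((2 : ℝ) ^ 11) ≤ Real.log K := by
      refine Real.log_le_log (by positivity) ?_
      rw [hK]
      linarith
    rw [Real.log_pow] at h11
    have h12 : 0 < Real.log 2 := Real.log_pos (by norm_num)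
    push_cast at h11
    linarith
  rw [h9]
  rw [hlα] at h6
  nlinarith [mul_le_mul_of_nonneg_right hRc' h10]

end Pool.Agent.H188.NL
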