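import Pool.Agent.H188.NL.Defs

/-!
# N2: left of the switching point all untouched scales are convex
-/

set_option autoImplicit false

namespace Pool.Agent.H188.NL

open Pool.Agent.H188.LB (Tch Plus Minus cnt wF)

theorem t_sign : S_sign := by
  intro F hF a s h t0 cs hh ht ht2 hcs hP u hu hus hTB c hc hcu
  by_contra hnp
  have hM : ∀ c', c < c' → c' ≤ a + 2 * s → Minus F c' u :=
    Pool.Agent.H188.LB.t_pattern F hF u c (a + 2 * s)
      (fun c' h1 h2 l hl => hTB ⟨c', l, by omega, h2, hl⟩) hnp
  exact Pool.Agent.H188.LB.t_link F hF t0 u (c + 1) (cs - 1) ht (by omega) (by omega)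
    (fun c' h1 h2 => hP c' (by omega) (by omega))
    (fun c' h1 h2 => hM c' (by omega) (by omega))

end Pool.Agent.H188.NL
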