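import Pool.Agent.H188.NL.Defs

/-!
# N1: the switching point
-/

set_option autoImplicit false

namespace Pool.Agent.H188.NL

open Pool.Agent.H188.LB (Tch Plus Minus cnt wF)

theorem t_switch : S_switch := by
  classical
  intro F hF a s h hh hs hg
  -- an untouched scale
  obtain ⟨t0, ht1, ht2, ht3⟩ : ∃ t0, h ≤ t0 ∧ t0 < 2 * h ∧ ¬ TB F (a - s) (a + 2 * s) t0 := by
    by_contra hcon
    push Not at hcon
    have h1 := hg h le_rfl (by linarith)
    have h2 : cnt (TB F (a - s) (a + 2 * s)) h = (Finset.Ico h (2 * h)).card := by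
      unfold cnt
      congr 1
      apply Finset.filter_true_of_mem
      intro t ht
      rw [Finset.mem_Ico] at ht
      exact hcon t ht.1 ht.2
    rw [h2, Int.card_Ico] at h1
    have h3 : (((2 * h - h).toNat : ℕ) : ℤ) = h := by
      rw [Int.toNat_of_nonneg (by linarith)]
      ring
    rw [h3] at h1
    linarith
  by_cases hall : ∀ c, a - s ≤ c → c ≤ a + 2 * s → Plus F c t0
  · refine ⟨t0, a + 2 * s + 1, ht1, ht2, by linarith, le_rfl, fun c h1 h2 => hall c h1 (by linarith),
      fun c h1 h2 => ?_⟩
    exfalso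
    linarith
  · push Not at hall
    obtain ⟨c, hc1, hc2, hc3⟩ := hall
    have hex : ∃ n : ℕ, ¬ Plus F (a - s + n) t0 := by
      refine ⟨(c - (a - s)).toNat, ?_⟩
      rw [Int.toNat_of_nonneg (by linarith)]
      have : a - s + (c - (a - s)) = c := by ring
      rwa [this]
    have hle : ((Nat.find hex : ℕ) : ℤ) ≤ c - (a - s) := by
      have h1 : Nat.find hex ≤ (c - (a - s)).toNat := by
        apply Nat.find_min'
        rw [Int.toNat_of_nonneg (by linarith)]
        have : a - s + (c - (a - s)) = c := by ring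
        rwa [this]
      have h2 : ((Nat.find hex : ℕ) : ℤ) ≤ (((c - (a - s)).toNat : ℕ) : ℤ) := by exact_mod_cast h1
      rwa [Int.toNat_of_nonneg (by linarith)] at h2
    have hnn : (0 : ℤ) ≤ ((Nat.find hex : ℕ) : ℤ) := Int.natCast_nonneg _
    refine ⟨t0, a - s + (Nat.find hex : ℕ), ht1, ht2, by linarith, by linarith,
      fun c' h1 h2 => ?_, fun c' h1 h2 => ?_⟩
    · have h3 : (c' - (a - s)).toNat < Nat.find hex := by
        have : (((c' - (a - s)).toNat : ℕ) : ℤ) < ((Nat.find hex : ℕ) : ℤ) := by
          rw [Int.toNat_of_nonneg (by linarith)]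
          linarith
        exact_mod_cast this
      have h4 := Nat.find_min hex h3
      rw [not_not, Int.toNat_of_nonneg (by linarith)] at h4
      have : a - s + (c' - (a - s)) = c' := by ring
      rwa [this] at h4
    · refine Pool.Agent.H188.LB.t_pattern F hF t0 (a - s + (Nat.find hex : ℕ)) (a + 2 * s) ?_
        (Nat.find_spec hex) c' h1 h2
      intro c'' h3 h4 l hl
      exact ht3 ⟨c'', l, by linarith, h4, hl⟩

end Pool.Agent.H188.NL
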