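import Pool.Agent.H188.NL.Defs

set_option autoImplicit false

namespace Pool.Agent.H188.NL

theorem t_tele : S_tele := by
  intro F p q h a N n d hh hN hCh hp hq hDL
  have hN' : (1 : ℤ) ≤ N := by exact_mod_cast hN
  have hn0 : (0 : ℤ) ≤ n := Int.natCast_nonneg n
  have hh0 : 0 ≤ h := by linarith
  obtain ⟨m, hm⟩ : ∃ m : ℤ → ℤ, ∀ j, m j = F (a + 64 * h * (j + 1)) - F (a + 64 * h * j) :=
    ⟨_, fun _ => rfl⟩
  have hstep : ∀ j : ℤ, -((N : ℤ) + 1) ≤ j → j ≤ n + N → m j < m (j + 1) := by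
    intro j h1 h2
    have c1 : p ≤ a + 64 * h * j := by nlinarith [mul_nonneg hh0 (show (0 : ℤ) ≤ j + (N + 1) by linarith)]
    have c2 : a + 64 * h * (j + 2) ≤ q := by
      nlinarith [mul_nonneg hh0 (show (0 : ℤ) ≤ n + N - j by linarith)]
    have k := hCh (a + 64 * h * j) (a + 64 * h * (j + 1)) (a + 64 * h * (j + 2)) c1
      (by linarith) (by linarith) (by linarith) c2
    have e1 : (a + 64 * h * (j + 2)) - (a + 64 * h * j) = 128 * h := by ring
    have e2 : (a + 64 * h * (j + 1)) - (a + 64 * h * j) = 64 * h := by ring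
    rw [e1, e2] at k
    have k2 : 64 * h * (2 * (F (a + 64 * h * (j + 1)) - F (a + 64 * h * j))) <
        64 * h * (F (a + 64 * h * (j + 2)) - F (a + 64 * h * j)) := by linarith
    have k3 := lt_of_mul_lt_mul_left k2 (by linarith)
    rw [hm, hm]
    have e3 : j + 1 + 1 = j + 2 := by ring
    rw [e3]
    linarith
  have hmono : ∀ j k : ℤ, -((N : ℤ) + 1) ≤ j → j ≤ k → k ≤ n + N + 1 → m j ≤ m k := by
    intro j k hj hjk
    induction k, hjk using Int.le_induction with
    | base => exact fun _ => le_rfl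
    | succ k hk ih =>
      intro hk2
      exact (ih (by linarith)).trans (hstep k (by linarith) (by linarith)).le
  have hsum : ∀ n' : ℕ, ∑ k ∈ Finset.range n', (m ((k : ℤ) + 2) - m ((k : ℤ) - 2)) =
      (m ((n' : ℤ) + 1) + m n' + m ((n' : ℤ) - 1) + m ((n' : ℤ) - 2)) -
        (m (-2) + m (-1) + m 0 + m 1) := by
    intro n'
    induction n' with
    | zero =>
      simp only [Finset.range_zero, Finset.sum_empty, Nat.cast_zero, zero_add, zero_sub]
      ring
    | succ n' ih =>
      rw [Finset.sum_range_succ, ih]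
      push_cast
      have e1 : (n' : ℤ) + 1 + 1 = n' + 2 := by ring
      have e2 : (n' : ℤ) + 1 - 1 = n' := by ring
      have e3 : (n' : ℤ) + 1 - 2 = n' - 1 := by ring
      rw [e1, e2, e3]
      ring
  have htop : ∀ i : ℕ, i ≤ N → (i : ℤ) * m ((n : ℤ) + 1) ≤
      F (a + 64 * h * ((n : ℤ) + 1 + i)) - F (a + 64 * h * ((n : ℤ) + 1)) := by
    intro i
    induction i with
    | zero => intro _; simp
    | succ i ih =>
      intro hi
      have hi' : (i : ℤ) + 1 ≤ N := by exact_mod_cast hi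
      have h1 := ih (by omega)
      have h2 := hmono ((n : ℤ) + 1) ((n : ℤ) + 1 + i) (by linarith) (by linarith [Int.natCast_nonneg i])
        (by linarith)
      rw [hm ((n : ℤ) + 1 + i)] at h2
      push_cast
      have e1 : (n : ℤ) + 1 + i + 1 = (n : ℤ) + 1 + (i + 1) := by ring
      rw [e1] at h2
      linarith
  have hbot : ∀ i : ℕ, i ≤ N → F (a + 64 * h * (-1)) - F (a + 64 * h * (-1 - (i : ℤ))) ≤
      (i : ℤ) * m (-2) := by
    intro i
    induction i with
    | zero => intro _; simp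
    | succ i ih =>
      intro hi
      have hi' : (i : ℤ) + 1 ≤ N := by exact_mod_cast hi
      have h1 := ih (by omega)
      have h2 := hmono (-1 - (i + 1 : ℤ)) (-2) (by linarith) (by linarith [Int.natCast_nonneg i])
        (by linarith)
      rw [hm (-1 - (i + 1 : ℤ))] at h2
      push_cast
      have e1 : -1 - ((i : ℤ) + 1) + 1 = -1 - i := by ring
      rw [e1] at h2
      linarith
  have hT := htop N le_rfl
  have hB := hbot N le_rfl
  -- the second differences
  have d1 := hDL (a + 32 * h * n) (32 * h * (n + 2) + 64 * h * N) (by positivity)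
    (by nlinarith) (by nlinarith)
  have d2 := hDL (a + 32 * h * n) (32 * h * (n + 2)) (by positivity)
    (by nlinarith [mul_nonneg hh0 (show (0 : ℤ) ≤ N by linarith)])
    (by nlinarith [mul_nonneg hh0 (show (0 : ℤ) ≤ N by linarith)])
  unfold D2 at d1 d2
  have f1 : a + 32 * h * n + (32 * h * (n + 2) + 64 * h * N) = a + 64 * h * ((n : ℤ) + 1 + N) := by ring
  have f2 : a + 32 * h * n - (32 * h * (n + 2) + 64 * h * N) = a + 64 * h * (-1 - (N : ℤ)) := by ring
  have f3 : a + 32 * h * n + 32 * h * (n + 2) = a + 64 * h * ((n : ℤ) + 1) := by ring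
  have f4 : a + 32 * h * n - 32 * h * (n + 2) = a + 64 * h * (-1) := by ring
  rw [f1, f2] at d1
  rw [f3, f4] at d2
  have d1' := abs_le.1 d1
  have d2' := abs_le.1 d2
  -- the sum
  have hS : ∑ k ∈ Finset.range n, ((F (a + 64 * h * k + 192 * h) - F (a + 64 * h * k + 128 * h)) -
      (F (a + 64 * h * k - 64 * h) - F (a + 64 * h * k - 128 * h))) =
      ∑ k ∈ Finset.range n, (m ((k : ℤ) + 2) - m ((k : ℤ) - 2)) := by
    refine Finset.sum_congr rfl fun k _ => ?_
    rw [hm, hm]
    have g1 : a + 64 * h * ((k : ℤ) + 2 + 1) = a + 64 * h * k + 192 * h := by ring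
    have g2 : a + 64 * h * ((k : ℤ) + 2) = a + 64 * h * k + 128 * h := by ring
    have g3 : a + 64 * h * ((k : ℤ) - 2 + 1) = a + 64 * h * k - 64 * h := by ring
    have g4 : a + 64 * h * ((k : ℤ) - 2) = a + 64 * h * k - 128 * h := by ring
    rw [g1, g2, g3, g4]
  rw [hS, hsum n]
  have m1 := hmono n ((n : ℤ) + 1) (by linarith) (by linarith) (by linarith)
  have m2 := hmono ((n : ℤ) - 1) ((n : ℤ) + 1) (by linarith) (by linarith) (by linarith)
  have m3 := hmono ((n : ℤ) - 2) ((n : ℤ) + 1) (by linarith) (by linarith) (by linarith)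
  have m4 := hmono (-2) (-1) (by linarith) (by norm_num) (by linarith)
  have m5 := hmono (-2) 0 (by linarith) (by norm_num) (by linarith)
  have m6 := hmono (-2) 1 (by linarith) (by norm_num) (by linarith)
  have hle : (m ((n : ℤ) + 1) + m n + m ((n : ℤ) - 1) + m ((n : ℤ) - 2)) -
        (m (-2) + m (-1) + m 0 + m 1) ≤ 4 * (m ((n : ℤ) + 1) - m (-2)) := by linarith
  calc (N : ℤ) * ((m ((n : ℤ) + 1) + m n + m ((n : ℤ) - 1) + m ((n : ℤ) - 2)) -
        (m (-2) + m (-1) + m 0 + m 1)) ≤ (N : ℤ) * (4 * (m ((n : ℤ) + 1) - m (-2))) :=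
        mul_le_mul_of_nonneg_left hle (by linarith)
    _ = 4 * ((N : ℤ) * m ((n : ℤ) + 1) - N * m (-2)) := by ring
    _ ≤ 8 * d := by linarith

end Pool.Agent.H188.NL
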