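import Pool.Agent.H188.NL.Asm
import Pool.Agent.H188.NL.Switch
import Pool.Agent.H188.NL.Sign
import Pool.Agent.H188.NL.Chord
import Pool.Agent.H188.NL.Local
import Pool.Agent.H188.NL.Tele
import Pool.Agent.H188.NL.Log
import Pool.Agent.H188.NL.Hier
import Pool.Agent.H188.NL.Fin

set_option autoImplicit false

namespace Pool.Agent.H188.NL

open Pool.Agent.H188.LB (Tch Plus Minus cnt wF)

theorem bad_pairs {F : ℤ → ℤ} {a s h A : ℤ} {Z : Finset (ℤ × ℤ)} (hh : 1 ≤ h)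
    (hZ : ∀ c u, 1 ≤ u → u ≤ c → c + u ≤ A → (∃ l, Tch F c u l) → (c, u) ∈ Z)
    (ha : 3 * s ≤ a) (hA : a + 4 * s ≤ A) (hbad : ¬ GW F a s h) :
    h ≤ 100 * ((Z.filter (fun z => h ≤ z.2 ∧ z.2 < 2 * s ∧ a - s ≤ z.1 ∧
      z.1 ≤ a + 2 * s)).card : ℤ) := by
  classical
  unfold GW at hbad
  push Not at hbad
  obtain ⟨S, h1, h2, h3⟩ := hbad
  have hle : cnt (TB F (a - s) (a + 2 * s)) S ≤ (Z.filter (fun z => h ≤ z.2 ∧ z.2 < 2 * s ∧
      a - s ≤ z.1 ∧ z.1 ≤ a + 2 * s)).card := by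
    have hex : ∀ u, ∃ c, TB F (a - s) (a + 2 * s) u →
        a - s ≤ c ∧ c ≤ a + 2 * s ∧ ∃ l, Tch F c u l := by
      intro u
      by_cases hu : TB F (a - s) (a + 2 * s) u
      · obtain ⟨c, l, k1, k2, k3⟩ := hu
        exact ⟨c, fun _ => ⟨k1, k2, l, k3⟩⟩
      · exact ⟨0, fun h => absurd h hu⟩
    choose f hf using hex
    unfold cnt
    apply Finset.card_le_card_of_injOn (fun u => (f u, u))
    · intro u hu
      rw [Finset.mem_coe, Finset.mem_filter, Finset.mem_Ico] at hu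
      obtain ⟨⟨k1, k2⟩, k3⟩ := hu
      obtain ⟨k4, k5, k6⟩ := hf u k3
      rw [Finset.mem_coe, Finset.mem_filter]
      refine ⟨hZ _ _ (by omega) (by omega) (by omega) k6, ?_, ?_, k4, k5⟩
      · show h ≤ u
        omega
      · show u < 2 * s
        omega
    · intro u _ v _ huv
      exact congrArg Prod.snd huv
  have : (cnt (TB F (a - s) (a + 2 * s)) S : ℤ) ≤ ((Z.filter (fun z => h ≤ z.2 ∧ z.2 < 2 * s ∧
      a - s ≤ z.1 ∧ z.1 ≤ a + 2 * s)).card : ℤ) := by exact_mod_cast hle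
  omega

theorem main_bound (hblock : S_block) (hcount : S_count) {F : ℤ → ℤ} (hF : Monotone F)
    {N K J : ℕ} (hN : 16 ≤ N) (hK : K = 1024 * N) {A : ℤ} {Z : Finset (ℤ × ℤ)}
    (hZ : ∀ c u, 1 ≤ u → u ≤ c → c + u ≤ A → (∃ l, Tch F c u l) → (c, u) ∈ Z)
    (hA : 7 * (K : ℤ) ^ J ≤ A) {γ : ℝ} (hγ : γ = 3 / 4 * (2 * Real.log K - 21 * Real.log 2))
    (hγ0 : 0 ≤ γ) :
    γ * J * (K : ℝ) ^ J ≤ (K : ℝ) ^ J *
      Real.log (1 + dv F (2 * (K : ℤ) ^ J - 1) (5 * (K : ℤ) ^ J)) + γ * (800 * K * Z.card) := by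
  classical
  have hK1 : 1 ≤ K := by omega
  have hKz : (1 : ℤ) ≤ K := by exact_mod_cast hK1
  have hKr : (0 : ℝ) < K := by exact_mod_cast hK1
  obtain ⟨a0, ha0⟩ : ∃ a0 : ℤ, a0 = 3 * (K : ℤ) ^ J := ⟨_, rfl⟩
  have hpos : ∀ j : ℕ, (1 : ℤ) ≤ (K : ℤ) ^ j := fun j => one_le_pow₀ hKz
  -- positions of windows
  have hwin : ∀ j i : ℕ, j < J → i < K ^ (J - (j + 1)) →
      (i : ℤ) * (K : ℤ) ^ (j + 1) + (K : ℤ) ^ (j + 1) ≤ (K : ℤ) ^ J ∧
      (K : ℤ) ^ (j + 1) ≤ (K : ℤ) ^ J := by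
    intro j i hj hi
    have h1 : (i : ℤ) + 1 ≤ (K : ℤ) ^ (J - (j + 1)) := by exact_mod_cast hi
    have h2 : (K : ℤ) ^ J = (K : ℤ) ^ (J - (j + 1)) * (K : ℤ) ^ (j + 1) := by
      rw [← pow_add]
      congr 1
      omega
    have h3 := mul_le_mul_of_nonneg_right h1 (show (0 : ℤ) ≤ (K : ℤ) ^ (j + 1) by
      linarith [hpos (j + 1)])
    rw [← h2] at h3
    constructor
    · linarith
    · have : 0 ≤ (i : ℤ) * (K : ℤ) ^ (j + 1) := by positivity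
      linarith
  have hsub : ∀ j i r : ℕ, r < K → dv F (a0 + ((i * K + r : ℕ) : ℤ) * (K : ℤ) ^ j - (K : ℤ) ^ j - 1)
      (a0 + ((i * K + r : ℕ) : ℤ) * (K : ℤ) ^ j + 2 * (K : ℤ) ^ j) ≤
      dv F (a0 + (i : ℤ) * (K : ℤ) ^ (j + 1) - (K : ℤ) ^ (j + 1) - 1)
      (a0 + (i : ℤ) * (K : ℤ) ^ (j + 1) + 2 * (K : ℤ) ^ (j + 1)) := by
    intro j i r hr
    have hr' : (r : ℤ) + 1 ≤ K := by exact_mod_cast hr
    have hr0 : (0 : ℤ) ≤ r := Int.natCast_nonneg r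
    have hp := hpos j
    have e : (K : ℤ) ^ (j + 1) = K * (K : ℤ) ^ j := by ring
    have m1 : 0 ≤ (r : ℤ) * (K : ℤ) ^ j := by positivity
    have m2 : (r : ℤ) * (K : ℤ) ^ j + (K : ℤ) ^ j ≤ K * (K : ℤ) ^ j := by
      have := mul_le_mul_of_nonneg_right hr' (show (0 : ℤ) ≤ (K : ℤ) ^ j by linarith)
      linarith
    have m3 : (K : ℤ) ^ j ≤ K * (K : ℤ) ^ j := by nlinarith
    apply dv_mono hF
    · push_cast
      rw [e]
      nlinarith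
    · push_cast
      rw [e]
      nlinarith
  have hh := t_hier K J γ (fun j i => Real.log (1 + dv F (a0 + (i : ℤ) * (K : ℤ) ^ j -
      (K : ℤ) ^ j - 1) (a0 + (i : ℤ) * (K : ℤ) ^ j + 2 * (K : ℤ) ^ j)))
    (fun j i => GW F (a0 + (i : ℤ) * (K : ℤ) ^ j) ((K : ℤ) ^ j) ((K : ℤ) ^ (j - 1))) hK1 hγ0
    (fun j i => Real.log_nonneg (by
      have : (0 : ℝ) ≤ (dv F (a0 + (i : ℤ) * (K : ℤ) ^ j -
        (K : ℤ) ^ j - 1) (a0 + (i : ℤ) * (K : ℤ) ^ j + 2 * (K : ℤ) ^ j) : ℝ) := Nat.cast_nonneg _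
      linarith))
    (by
      intro j i hj hi
      have : ∀ r ∈ Finset.range K, Real.log (1 + dv F (a0 + ((i * K + r : ℕ) : ℤ) * (K : ℤ) ^ j -
          (K : ℤ) ^ j - 1) (a0 + ((i * K + r : ℕ) : ℤ) * (K : ℤ) ^ j + 2 * (K : ℤ) ^ j)) ≤
          Real.log (1 + dv F (a0 + (i : ℤ) * (K : ℤ) ^ (j + 1) -
          (K : ℤ) ^ (j + 1) - 1) (a0 + (i : ℤ) * (K : ℤ) ^ (j + 1) + 2 * (K : ℤ) ^ (j + 1))) := by
        intro r hr
        rw [Finset.mem_range] at hr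
        have h1 := hsub j i r hr
        apply Real.log_le_log (by positivity)
        have : ((dv F (a0 + ((i * K + r : ℕ) : ℤ) * (K : ℤ) ^ j -
          (K : ℤ) ^ j - 1) (a0 + ((i * K + r : ℕ) : ℤ) * (K : ℤ) ^ j + 2 * (K : ℤ) ^ j) : ℕ) : ℝ) ≤
          ((dv F (a0 + (i : ℤ) * (K : ℤ) ^ (j + 1) -
          (K : ℤ) ^ (j + 1) - 1) (a0 + (i : ℤ) * (K : ℤ) ^ (j + 1) + 2 * (K : ℤ) ^ (j + 1)) : ℕ) : ℝ)
          := by exact_mod_cast h1
        linarith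
      have h2 := Finset.sum_le_sum this
      rw [Finset.sum_const, Finset.card_range, nsmul_eq_mul] at h2
      exact h2)
    (by
      intro j i hj hi hG
      simp only [Nat.add_sub_cancel] at hG
      have hp := hpos j
      obtain ⟨R, r1, r2, r3⟩ := good_contract t_switch t_sign t_chord t_local hblock t_tele hF
        (a := a0 + (i : ℤ) * (K : ℤ) ^ (j + 1)) (s := (K : ℤ) ^ (j + 1)) (h := (K : ℤ) ^ j) (N := N)
        hp hN (by rw [hK]; push_cast; ring) hG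
      have e1 : ∀ r : ℕ, a0 + (i : ℤ) * (K : ℤ) ^ (j + 1) + r * (K : ℤ) ^ j =
          a0 + ((i * K + r : ℕ) : ℤ) * (K : ℤ) ^ j := by
        intro r
        push_cast
        ring
      simp only [e1] at r3
      have hl := t_log N (dv F (a0 + (i : ℤ) * (K : ℤ) ^ (j + 1) -
          (K : ℤ) ^ (j + 1) - 1) (a0 + (i : ℤ) * (K : ℤ) ^ (j + 1) + 2 * (K : ℤ) ^ (j + 1)))
        (fun r => dv F (a0 + ((i * K + r : ℕ) : ℤ) * (K : ℤ) ^ j - (K : ℤ) ^ j - 1)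
          (a0 + ((i * K + r : ℕ) : ℤ) * (K : ℤ) ^ j + 2 * (K : ℤ) ^ j)) R (by omega) r1 r2
        (fun r hr => hsub j i r (by rw [hK]; exact hr)) r3
      have hKc : (K : ℝ) = 1024 * N := by rw [hK]; push_cast; ring
      rw [← hK] at hl
      refine hl.trans (le_of_eq ?_)
      rw [hγ, ← hKc]
      have : (768 : ℝ) * N = 3 / 4 * K := by rw [hKc]; ring
      rw [this]
      ring)
  have hc := hcount K J a0 Z
    (fun j i => ¬ GW F (a0 + (i : ℤ) * (K : ℤ) ^ j) ((K : ℤ) ^ j) ((K : ℤ) ^ (j - 1)))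
    (by omega) (by
      intro j i hj hi hB
      simp only [Nat.add_sub_cancel] at hB
      obtain ⟨w1, w2⟩ := hwin j i hj hi
      have hi0 : 0 ≤ (i : ℤ) * (K : ℤ) ^ (j + 1) := by positivity
      have := bad_pairs (hpos j) hZ (a := a0 + (i : ℤ) * (K : ℤ) ^ (j + 1)) (s := (K : ℤ) ^ (j + 1))
        (by rw [ha0]; linarith) (by rw [ha0]; linarith) hB
      exact_mod_cast this)
  have hcr : (∑ j ∈ Finset.range J, (K : ℝ) ^ (j + 1) * (((Finset.range (K ^ (J - (j + 1)))).filter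
      (fun i : ℕ => ¬ GW F (a0 + (i : ℤ) * (K : ℤ) ^ (j + 1)) ((K : ℤ) ^ (j + 1))
        ((K : ℤ) ^ (j + 1 - 1)))).card : ℝ)) ≤ 800 * K * Z.card := by
    exact_mod_cast hc
  have h0 := mul_le_mul_of_nonneg_left hcr hγ0
  refine hh.trans ?_
  have ea : a0 + ((0 : ℕ) : ℤ) * (K : ℤ) ^ J - (K : ℤ) ^ J - 1 = 2 * (K : ℤ) ^ J - 1 := by
    rw [ha0]
    push_cast
    ring
  have eb : a0 + ((0 : ℕ) : ℤ) * (K : ℤ) ^ J + 2 * (K : ℤ) ^ J = 5 * (K : ℤ) ^ J := by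
    rw [ha0]
    push_cast
    ring
  simp only [ea, eb]
  linarith

end Pool.Agent.H188.NL
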