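import Pool.Agent.H188.NL.Defs

set_option autoImplicit false

namespace Pool.Agent.H188.NL

open Pool.Agent.H188.LB (Tch wF wF_mono wF_point take_count_mono)

theorem occ_fin (w : List Bool) : (occ w).Finite := by
  apply Set.Finite.subset ((Finset.range (w.length + 2) ×ˢ Finset.range (w.length + 1) :
    Finset (ℕ × ℕ)).finite_toSet)
  rintro p ⟨x, u, v, y, h1, h2, h3, rfl⟩
  have h := congrArg List.length h1
  simp only [List.length_append] at h
  rw [Finset.mem_coe, Finset.mem_product, Finset.mem_range, Finset.mem_range]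
  simp only [List.length_append]
  omega

theorem occ_key (w : List Bool) (b : Bool) (c u l : ℤ) (hu : 1 ≤ u) (huc : u ≤ c)
    (hcu : c + u ≤ w.count b) (hT : Tch (fun x => (wF w b x : ℤ)) c u l) :
    ∃ k1 k3 : ℕ, (k1 + 1, k3) ∈ occ w ∧ (((w.take k1).count b : ℕ) : ℤ) = c - u ∧
      (((w.take k3).count b : ℕ) : ℤ) = c + u := by
  obtain ⟨y, a1, a2, a3, a4, a5, a6⟩ := hT
  obtain ⟨k1, hk1, p1, q1⟩ := wF_point w b (c - u) (y - l) (by omega) (by omega) a1 a2
  obtain ⟨k2, hk2, p2, q2⟩ := wF_point w b c y (by omega) (by omega) a3 a4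
  obtain ⟨k3, hk3, p3, q3⟩ := wF_point w b (c + u) (y + l) (by omega) (by omega) a5 a6
  have h12 : k1 ≤ k2 := by
    by_contra hlt
    have := take_count_mono w b (show k2 ≤ k1 by omega)
    omega
  have h23 : k2 ≤ k3 := by
    by_contra hlt
    have := take_count_mono w b (show k3 ≤ k2 by omega)
    omega
  have e12 : w.take k2 = w.take k1 ++ (w.take k2).drop k1 := by
    have e1 := List.take_append_drop k1 (w.take k2)
    rw [List.take_take, min_eq_left h12] at e1
    exact e1.symm
  have e23 : w.take k3 = w.take k2 ++ (w.take k3).drop k2 := by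
    have e1 := List.take_append_drop k2 (w.take k3)
    rw [List.take_take, min_eq_left h23] at e1
    exact e1.symm
  have c1 := congrArg (List.count b) e12
  have c2 := congrArg (List.count (!b)) e12
  have c3 := congrArg (List.count b) e23
  have c4 := congrArg (List.count (!b)) e23
  rw [List.count_append] at c1 c2 c3 c4
  refine ⟨k1, k3, ⟨w.take k1, (w.take k2).drop k1, (w.take k3).drop k2, w.drop k3, ?_, ?_, ?_, ?_⟩,
    p1, p3⟩
  · rw [← List.append_assoc, ← e12, ← e23, List.take_append_drop]
  · intro h0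
    rw [h0, List.count_nil] at c1
    omega
  · have g1 : ((w.take k2).drop k1).count b = ((w.take k3).drop k2).count b := by omega
    have g2 : ((w.take k2).drop k1).count (!b) = ((w.take k3).drop k2).count (!b) := by omega
    cases b
    · rw [Bool.not_false] at g2
      rw [g1, g2]
    · rw [Bool.not_true] at g2
      rw [g1, g2]
  · simp only [List.length_append, List.length_drop, List.length_take]
    refine Prod.ext ?_ ?_
    · show k1 + 1 = min k1 w.length + 1
      omega
    · show k3 = min k1 w.length + (min k2 w.length - k1 + (min k3 w.length - k2))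
      omega

theorem t_occ : S_occ := by
  intro w b
  refine ⟨?_, ?_⟩
  · intro x
    unfold wF
    apply Finset.sup_le
    intro k _
    exact (List.take_sublist k w).count_le _
  · intro Z hZ
    classical
    have key : ∀ z ∈ Z, ∃ k : ℕ × ℕ, (k.1 + 1, k.2) ∈ occ w ∧
        (((w.take k.1).count b : ℕ) : ℤ) = z.1 - z.2 ∧
        (((w.take k.2).count b : ℕ) : ℤ) = z.1 + z.2 := by
      intro z hz
      obtain ⟨h1, h2, h3, l, h4⟩ := hZ z hz
      obtain ⟨k1, k3, g1, g2, g3⟩ := occ_key w b z.1 z.2 l h1 h2 h3 h4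
      exact ⟨(k1, k3), g1, g2, g3⟩
    choose! f hf using key
    have hinj : Set.InjOn (fun z => ((f z).1 + 1, (f z).2)) (Z : Set (ℤ × ℤ)) := by
      intro z hz z' hz' he
      rw [Finset.mem_coe] at hz hz'
      obtain ⟨_, g2, g3⟩ := hf z hz
      obtain ⟨_, g2', g3'⟩ := hf z' hz'
      simp only [Prod.mk.injEq] at he
      have e1 : (f z).1 = (f z').1 := by omega
      rw [e1] at g2
      rw [he.2] at g3
      refine Prod.ext ?_ ?_ <;> omega
    rw [← Finset.card_image_of_injOn hinj, ← Set.ncard_coe_finset]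
    refine Set.ncard_le_ncard ?_ (occ_fin w)
    intro p hp
    rw [Finset.mem_coe, Finset.mem_image] at hp
    obtain ⟨z, hz, rfl⟩ := hp
    exact (hf z hz).1

end Pool.Agent.H188.NL
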